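import Mathlib

/-!
# LP-Asy: the comparison for large dimension

`e (d+1) (q/√(2πe))^d ≤ ((1-ε)/e)^d` for large `d`, if `0 ≤ q < √(2π/e)`:
`ρ = q e/√(2πe) = q/√(2π/e) < 1` (`√(2πe) = e √(2π/e)`); take `ε = (1-ρ)/2`, so `ρ < 1 - ε < 1`,
`e (d+1) (ρ/(1-ε))^d → 0` (`tendsto_self_mul_const_pow_of_lt_one`,
`tendsto_pow_const_mul_const_pow_of_abs_lt_one`), hence it is `≤ 1` for `d ≥ d₀`.
-/

set_option autoImplicit false

open MeasureTheory Set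

namespace Pool.Agent.Lib.MP_29b1bb_gt.LP

theorem asy (q : ℝ) (h0 : 0 ≤ q) (hq : q < Real.sqrt (2 * Real.pi / Real.exp 1)) :
    ∃ ε : ℝ, 0 < ε ∧ ε < 1 ∧ ∃ d₀ : ℕ, ∀ d : ℕ, d₀ ≤ d →
      Real.exp 1 * ((d : ℝ) + 1) * (q / Real.sqrt (2 * Real.pi * Real.exp 1)) ^ d ≤
        ((1 - ε) / Real.exp 1) ^ d := by
  obtain ⟨E, hE⟩ : ∃ E : ℝ, E = Real.exp 1 := ⟨_, rfl⟩
  have hE0 : 0 < E := by rw [hE]; exact Real.exp_pos 1
  rw [← hE] at hq ⊢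
  obtain ⟨R, hR⟩ : ∃ R : ℝ, R = Real.sqrt (2 * Real.pi / E) := ⟨_, rfl⟩
  rw [← hR] at hq
  have hR0 : 0 < R := lt_of_le_of_lt h0 hq
  have hS : Real.sqrt (2 * Real.pi * E) = E * R := by
    have h1 : 2 * Real.pi * E = E ^ 2 * (2 * Real.pi / E) := by
      field_simp
    rw [h1, Real.sqrt_mul (by positivity), Real.sqrt_sq hE0.le, hR]
  rw [hS]
  obtain ⟨r, hr⟩ : ∃ r : ℝ, r = q / R := ⟨_, rfl⟩
  have hr0 : 0 ≤ r := by rw [hr]; positivity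
  have hr1 : r < 1 := by rw [hr]; exact (div_lt_one hR0).2 hq
  refine ⟨(1 - r) / 2, by linarith, by linarith, ?_⟩
  have h2 : (0 : ℝ) < 1 - (1 - r) / 2 := by linarith
  obtain ⟨s, hs⟩ : ∃ s : ℝ, s = r / (1 - (1 - r) / 2) := ⟨_, rfl⟩
  have hs0 : 0 ≤ s := by rw [hs]; positivity
  have hs1 : s < 1 := by
    rw [hs, div_lt_one h2]
    linarith
  have h3 : Filter.Tendsto (fun n : ℕ => E * ((n : ℝ) * s ^ n + s ^ n)) Filter.atTop
      (nhds (E * (0 + 0))) :=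
    ((tendsto_self_mul_const_pow_of_lt_one hs0 hs1).add
      (tendsto_pow_atTop_nhds_zero_of_lt_one hs0 hs1)).const_mul E
  have h4 : ∀ᶠ n : ℕ in Filter.atTop, E * ((n : ℝ) * s ^ n + s ^ n) < 1 :=
    h3.eventually (gt_mem_nhds (by simp))
  obtain ⟨d₀, hd⟩ := Filter.eventually_atTop.1 h4
  refine ⟨d₀, fun d hdd => ?_⟩
  have h5 := hd d hdd
  have h6 : q / (E * R) = s * ((1 - (1 - r) / 2) / E) := by
    rw [hs, hr]
    rw [← hr]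
    have h7 : r / (1 - (1 - r) / 2) * ((1 - (1 - r) / 2) / E) = r / E := by
      rw [div_mul_div_comm, mul_comm r, mul_div_mul_left _ _ h2.ne']
    rw [h7, hr, div_div, mul_comm R]
  rw [h6, mul_pow, ← mul_assoc]
  have h8 : 0 ≤ ((1 - (1 - r) / 2) / E) ^ d := by positivity
  calc E * ((d : ℝ) + 1) * s ^ d * ((1 - (1 - r) / 2) / E) ^ d
      = E * ((d : ℝ) * s ^ d + s ^ d) * ((1 - (1 - r) / 2) / E) ^ d := by ring
    _ ≤ 1 * ((1 - (1 - r) / 2) / E) ^ d := mul_le_mul_of_nonneg_right h5.le h8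
    _ = _ := one_mul _

end Pool.Agent.Lib.MP_29b1bb_gt.LP
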