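import Mathlib

/-!
# LP-Cov: matrices

* `cov_le`: if `C` is positive semidefinite then `det C ≤ det (C + m mᵀ)`. If `det C = 0` the right
  side is `≥ 0` (positive semidefinite matrix, `Matrix.PosSemidef.det_nonneg`). Otherwise `C` is positive
  definite, `det (C + m mᵀ) = det C (1 + mᵀ C⁻¹ m)` (matrix determinant lemma:
  `Matrix.det_add_replicateCol_mul_replicateRow`) and `mᵀ C⁻¹ m ≥ 0` (`Matrix.PosDef.inv`).
* `exists_root`: a positive semidefinite `A` is `B Bᵀ` (`Matrix.PosSemidef.sqrt`/`CFC.sqrt`, or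
  `Matrix.posSemidef_iff_eq_conjTranspose_mul_self` with `B = Mᵀ`), `det A = (det B)²`.
* `second_posSemidef`: `uᵀ A u = ∫ (∑ u_i x_i)² dμ ≥ 0`.
* `cov_posSemidef`: `uᵀ C u = ∫ (∑ u_i (x_i - m_i))² dμ ≥ 0`.
-/

set_option autoImplicit false

open MeasureTheory Set
open scoped MatrixOrder ComplexOrder Matrix

namespace Pool.Agent.Lib.MP_29b1bb_gt.LP

theorem cov_le {d : ℕ} (C : Matrix (Fin d) (Fin d) ℝ) (hC : C.PosSemidef) (m : Fin d → ℝ) :
    C.det ≤ (Matrix.of fun i j => C i j + m i * m j).det := by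
  have heq : (Matrix.of fun i j => C i j + m i * m j)
      = C + Matrix.replicateCol Unit m * Matrix.replicateRow Unit m := by
    ext i j
    simp [Matrix.mul_apply]
  have hmm : (Matrix.replicateCol Unit m * Matrix.replicateRow Unit m).PosSemidef := by
    have h1 := Matrix.posSemidef_vecMulVec_self_star (R := ℝ) m
    rw [Matrix.vecMulVec_eq Unit] at h1
    simpa using h1
  by_cases h0 : C.det = 0
  · rw [h0, heq]
    exact (hC.add hmm).det_nonneg
  · have hpd : C.PosDef := (hC.posDef_iff_det_ne_zero).mpr h0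
    have hdet : 0 < C.det := hpd.det_pos
    rw [heq, Matrix.det_add_replicateCol_mul_replicateRow (isUnit_iff_ne_zero.mpr h0)]
    have h2 : 0 ≤ (Matrix.replicateRow Unit m * C⁻¹ * Matrix.replicateCol Unit m) () () := by
      have h3 := hC.inv.dotProduct_mulVec_nonneg m
      have h4 : (Matrix.replicateRow Unit m * C⁻¹ * Matrix.replicateCol Unit m) () ()
          = star m ⬝ᵥ (C⁻¹ *ᵥ m) := by
        rw [Matrix.mul_assoc]
        simp [Matrix.mul_apply, dotProduct, Matrix.mulVec]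
      rw [h4]
      exact h3
    have h5 : (1 + Matrix.replicateRow Unit m * C⁻¹ * Matrix.replicateCol Unit m).det
        = 1 + (Matrix.replicateRow Unit m * C⁻¹ * Matrix.replicateCol Unit m) () () := by
      rw [Matrix.det_unique]
      simp
    rw [h5]
    nlinarith

theorem exists_root {d : ℕ} (A : Matrix (Fin d) (Fin d) ℝ) (hA : A.PosSemidef) :
    ∃ B : Matrix (Fin d) (Fin d) ℝ, (∀ i j, A i j = ∑ k, B i k * B j k) ∧ A.det = B.det ^ 2 := by
  have hsq : CFC.sqrt A * CFC.sqrt A = A := CFC.sqrt_mul_sqrt_self A hA.nonneg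
  have hh : (CFC.sqrt A).IsHermitian := ((Matrix.nonneg_iff_posSemidef (A := CFC.sqrt A)).mp (CFC.sqrt_nonneg A)).isHermitian
  refine ⟨CFC.sqrt A, fun i j => ?_, ?_⟩
  · have h1 : A i j = (CFC.sqrt A * CFC.sqrt A) i j := by rw [hsq]
    rw [h1, Matrix.mul_apply]
    refine Finset.sum_congr rfl fun k _ => ?_
    have h2 := hh.apply k j
    simp only [star_trivial] at h2
    rw [h2]
  · have h1 : A.det = (CFC.sqrt A * CFC.sqrt A).det := by rw [hsq]
    rw [h1, Matrix.det_mul, sq]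

private lemma lspCov_int {d : ℕ} (μ : Measure (Fin d → ℝ)) [IsProbabilityMeasure μ]
    (hμ : ∃ R : ℝ, ∀ᵐ x ∂μ, ∀ i, |x i| ≤ R) (i : Fin d) : Integrable (fun x : Fin d → ℝ => x i) μ := by
  obtain ⟨R, hR⟩ := hμ
  refine Integrable.of_bound (measurable_pi_apply i).aestronglyMeasurable R ?_
  filter_upwards [hR] with x hx
  rw [Real.norm_eq_abs]
  exact hx i

private lemma lspCov_int2 {d : ℕ} (μ : Measure (Fin d → ℝ)) [IsProbabilityMeasure μ]
    (hμ : ∃ R : ℝ, ∀ᵐ x ∂μ, ∀ i, |x i| ≤ R) (i j : Fin d) :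
    Integrable (fun x : Fin d → ℝ => x i * x j) μ := by
  obtain ⟨R, hR⟩ := hμ
  refine Integrable.of_bound
    ((measurable_pi_apply i).mul (measurable_pi_apply j)).aestronglyMeasurable (R * R) ?_
  filter_upwards [hR] with x hx
  rw [Real.norm_eq_abs, abs_mul]
  exact mul_le_mul (hx i) (hx j) (abs_nonneg _) ((abs_nonneg _).trans (hx i))

private lemma lspCov_sq {d : ℕ} (μ : Measure (Fin d → ℝ)) [IsProbabilityMeasure μ]
    (hμ : ∃ R : ℝ, ∀ᵐ x ∂μ, ∀ i, |x i| ≤ R) (u : Fin d → ℝ) :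
    ∫ x, (∑ i, u i * x i) ^ 2 ∂μ = ∑ i, ∑ j, u i * u j * ∫ x, x i * x j ∂μ := by
  have h1 : ∀ x : Fin d → ℝ, (∑ i, u i * x i) ^ 2 = ∑ i, ∑ j, u i * u j * (x i * x j) := by
    intro x
    rw [sq, Finset.sum_mul_sum]
    exact Finset.sum_congr rfl fun i _ => Finset.sum_congr rfl fun j _ => by ring
  simp_rw [h1]
  rw [integral_finsetSum _ fun i _ => integrable_finsetSum _ fun j _ =>
    (lspCov_int2 μ hμ i j).const_mul _]
  refine Finset.sum_congr rfl fun i _ => ?_
  rw [integral_finsetSum _ fun j _ => (lspCov_int2 μ hμ i j).const_mul _]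
  exact Finset.sum_congr rfl fun j _ => integral_const_mul _ _

theorem second_posSemidef {d : ℕ} (μ : Measure (Fin d → ℝ)) [IsProbabilityMeasure μ]
    (hμ : ∃ R : ℝ, ∀ᵐ x ∂μ, ∀ i, |x i| ≤ R) :
    (Matrix.of fun i j : Fin d => ∫ x, x i * x j ∂μ).PosSemidef := by
  refine Matrix.PosSemidef.of_dotProduct_mulVec_nonneg ?_ fun u => ?_
  · ext i j
    simp only [Matrix.conjTranspose_apply, Matrix.of_apply, star_trivial]
    exact integral_congr_ae (Filter.Eventually.of_forall fun x => mul_comm _ _)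
  · have h1 : star u ⬝ᵥ ((Matrix.of fun i j : Fin d => ∫ x, x i * x j ∂μ) *ᵥ u)
        = ∫ x, (∑ i, u i * x i) ^ 2 ∂μ := by
      rw [lspCov_sq μ hμ u]
      simp only [dotProduct, Matrix.mulVec, Pi.star_apply, star_trivial, Matrix.of_apply,
        Finset.mul_sum]
      exact Finset.sum_congr rfl fun i _ => Finset.sum_congr rfl fun j _ => by ring
    rw [h1]
    exact integral_nonneg fun x => sq_nonneg _

theorem cov_posSemidef {d : ℕ} (μ : Measure (Fin d → ℝ)) [IsProbabilityMeasure μ]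
    (hμ : ∃ R : ℝ, ∀ᵐ x ∂μ, ∀ i, |x i| ≤ R) :
    (Matrix.of fun i j : Fin d => (∫ x, x i * x j ∂μ) - (∫ x, x i ∂μ) * ∫ x, x j ∂μ).PosSemidef := by
  refine Matrix.PosSemidef.of_dotProduct_mulVec_nonneg ?_ fun u => ?_
  · ext i j
    simp only [Matrix.conjTranspose_apply, Matrix.of_apply, star_trivial]
    have h : ∫ x, x j * x i ∂μ = ∫ x, x i * x j ∂μ :=
      integral_congr_ae (Filter.Eventually.of_forall fun x => mul_comm _ _)
    rw [h, mul_comm (∫ x, x j ∂μ)]
  · set c : ℝ := ∑ i, u i * ∫ x, x i ∂μ with hc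
    have hints : Integrable (fun x : Fin d → ℝ => ∑ i, u i * x i) μ :=
      integrable_finsetSum _ fun i _ => (lspCov_int μ hμ i).const_mul _
    have hints2 : Integrable (fun x : Fin d → ℝ => (∑ i, u i * x i) ^ 2) μ := by
      have h1 : ∀ x : Fin d → ℝ, (∑ i, u i * x i) ^ 2 = ∑ i, ∑ j, u i * u j * (x i * x j) := by
        intro x
        rw [sq, Finset.sum_mul_sum]
        exact Finset.sum_congr rfl fun i _ => Finset.sum_congr rfl fun j _ => by ring
      simp_rw [h1]
      exact integrable_finsetSum _ fun i _ => integrable_finsetSum _ fun j _ =>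
        (lspCov_int2 μ hμ i j).const_mul _
    have hs : ∫ x, (∑ i, u i * x i) ∂μ = c := by
      rw [integral_finsetSum _ fun i _ => (lspCov_int μ hμ i).const_mul _]
      exact Finset.sum_congr rfl fun i _ => integral_const_mul _ _
    have h1 : star u ⬝ᵥ ((Matrix.of fun i j : Fin d =>
        (∫ x, x i * x j ∂μ) - (∫ x, x i ∂μ) * ∫ x, x j ∂μ) *ᵥ u)
        = (∫ x, (∑ i, u i * x i) ^ 2 ∂μ) - c ^ 2 := by
      rw [lspCov_sq μ hμ u, hc, sq, Finset.sum_mul_sum, ← Finset.sum_sub_distrib]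
      simp only [dotProduct, Matrix.mulVec, Pi.star_apply, star_trivial, Matrix.of_apply,
        Finset.mul_sum, ← Finset.sum_sub_distrib]
      exact Finset.sum_congr rfl fun i _ => Finset.sum_congr rfl fun j _ => by ring
    have h2 : 0 ≤ ∫ x, ((∑ i, u i * x i) - c) ^ 2 ∂μ := integral_nonneg fun x => sq_nonneg _
    have h3 : ∫ x, ((∑ i, u i * x i) - c) ^ 2 ∂μ
        = (∫ x, (∑ i, u i * x i) ^ 2 ∂μ) - c ^ 2 := by
      have h4 : ∀ x : Fin d → ℝ, ((∑ i, u i * x i) - c) ^ 2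
          = ((∑ i, u i * x i) ^ 2 - 2 * c * (∑ i, u i * x i)) + c ^ 2 := fun x => by ring
      simp_rw [h4]
      have h5 : Integrable (fun x : Fin d → ℝ =>
          (∑ i, u i * x i) ^ 2 - 2 * c * (∑ i, u i * x i)) μ := hints2.sub (hints.const_mul _)
      have h6 : Integrable (fun x : Fin d → ℝ => 2 * c * (∑ i, u i * x i)) μ := hints.const_mul _
      rw [integral_add h5 (integrable_const _), integral_sub hints2 h6, integral_const_mul, hs,
        integral_const]
      simp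
      ring
    rw [h1, ← h3]
    exact h2

end Pool.Agent.Lib.MP_29b1bb_gt.LP
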