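import Mathlib

/-!
# LP-Defs: unit balls of subspaces of `L_p`
-/

set_option autoImplicit false

open MeasureTheory Set

namespace Pool.Agent.Lib.MP_29b1bb_gt.LP

/-- The `p`-th power of the norm of `∑ x_i f_i` in `L_p(ν)`. -/
noncomputable def phi {Ω : Type*} [MeasurableSpace Ω] (ν : Measure Ω) (p : ℝ) {d : ℕ}
    (f : Fin d → Ω → ℝ) (x : Fin d → ℝ) : ℝ :=
  ∫ ω, |∑ i, x i * f i ω| ^ p ∂ν

/-- The absolute moment of order `p` of the standard Gaussian law. -/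
noncomputable def gm (p : ℝ) : ℝ := ∫ x, |x| ^ p ∂(ProbabilityTheory.gaussianReal 0 1)

/-- The standard Gaussian measure of `ℝ^d`. -/
noncomputable def gau (d : ℕ) : Measure (Fin d → ℝ) :=
  Measure.pi fun _ => ProbabilityTheory.gaussianReal 0 1

instance (d : ℕ) : IsProbabilityMeasure (gau d) := by unfold gau; infer_instance

/-- `(∑_j (∑_i B_ij f_i)²)^(p/2)` integrated. -/
noncomputable def sq {Ω : Type*} [MeasurableSpace Ω] (ν : Measure Ω) (p : ℝ) {d : ℕ}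
    (f : Fin d → Ω → ℝ) (B : Matrix (Fin d) (Fin d) ℝ) : ℝ :=
  ∫ ω, Real.sqrt (∑ j, (∑ i, B i j * f i ω) ^ 2) ^ p ∂ν

end Pool.Agent.Lib.MP_29b1bb_gt.LP
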