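import Pool.Agent.Lib.MP_29b1bb_gt.LP.Defs

/-!
# LP-Mom: moments of a linear functional of a Gaussian vector

The law of `∑ v_i g_i` under `gau d` is `gaussianReal 0 (∑ v_i²)`, that is the law of `|v| g_1`:
induction on `d` with `gaussianReal_add_gaussianReal_of_indepFun` / `gaussianReal_conv_gaussianReal`
(convolution) and `gaussianReal_const_mul`/`gaussianReal_map_const_mul`, or by characteristic functions
(`Measure.ext_of_charFun`, `charFun_gaussianReal`, integral of a product over `Measure.pi`).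
All moments of `gaussianReal 0 1` are finite: `ProbabilityTheory.memLp_id_gaussianReal`.
-/

set_option autoImplicit false

open MeasureTheory Set

namespace Pool.Agent.Lib.MP_29b1bb_gt.LP

theorem gm_int {p : ℝ} (hp : 0 < p) :
    Integrable (fun x : ℝ => |x| ^ p) (ProbabilityTheory.gaussianReal 0 1) := by
  have h := ProbabilityTheory.memLp_id_gaussianReal' (μ := 0) (v := 1) (ENNReal.ofReal p)
    ENNReal.ofReal_ne_top
  have h1 := h.integrable_norm_rpow (by simpa using hp) ENNReal.ofReal_ne_top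
  rw [ENNReal.toReal_ofReal hp.le] at h1
  exact h1

private theorem lspMom_law {d : ℕ} (v : Fin d → ℝ) :
    (gau d).map (fun g : Fin d → ℝ => ∑ i, v i * g i) =
      (ProbabilityTheory.gaussianReal 0 1).map (fun x => Real.sqrt (∑ i, v i ^ 2) * x) := by
  have hm : Measurable (fun g : Fin d → ℝ => ∑ i, v i * g i) := by fun_prop
  have : IsProbabilityMeasure ((gau d).map (fun g : Fin d → ℝ => ∑ i, v i * g i)) :=
    Measure.isProbabilityMeasure_map hm.aemeasurable
  have hS : 0 ≤ ∑ i, v i ^ 2 := Finset.sum_nonneg fun i _ => sq_nonneg _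
  rw [ProbabilityTheory.gaussianReal_map_const_mul]
  refine Measure.ext_of_charFun ?_
  funext t
  rw [ProbabilityTheory.charFun_gaussianReal, charFun_apply_real,
    integral_map hm.aemeasurable (by fun_prop)]
  have h1 : ∀ g : Fin d → ℝ, Complex.exp (t * ((∑ i, v i * g i : ℝ) : ℂ) * Complex.I) =
      ∏ i, Complex.exp (((t * v i : ℝ) : ℂ) * (g i : ℂ) * Complex.I) := by
    intro g
    rw [← Complex.exp_sum]
    congr 1
    push_cast
    rw [Finset.mul_sum, Finset.sum_mul]
    exact Finset.sum_congr rfl fun i _ => by ring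
  simp only [h1]
  unfold gau
  rw [integral_fintype_prod_eq_prod (𝕜 := ℂ)
    (fun i (x : ℝ) => Complex.exp (((t * v i : ℝ) : ℂ) * (x : ℂ) * Complex.I))]
  have h2 : ∀ i, ∫ x : ℝ, Complex.exp (((t * v i : ℝ) : ℂ) * (x : ℂ) * Complex.I)
      ∂(ProbabilityTheory.gaussianReal 0 1) = Complex.exp (-((t : ℂ) * v i) ^ 2 / 2) := by
    intro i
    rw [← charFun_apply_real, ProbabilityTheory.charFun_gaussianReal]
    congr 1
    push_cast
    ring
  rw [Finset.prod_congr rfl fun i _ => h2 i, ← Complex.exp_sum]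
  congr 1
  have h3 : ((Real.sqrt (∑ i, v i ^ 2) ^ 2 : ℝ) : ℂ) = ∑ i, (v i : ℂ) ^ 2 := by
    rw [Real.sq_sqrt hS]
    push_cast
    rfl
  push_cast
  push_cast at h3
  rw [h3, Finset.sum_mul, Finset.sum_mul, Finset.sum_div]
  simp only [mul_zero, zero_mul, zero_sub]
  rw [← Finset.sum_neg_distrib]
  exact Finset.sum_congr rfl fun i _ => by ring

theorem gau_moment {d : ℕ} (v : Fin d → ℝ) {p : ℝ} (hp : 0 < p) :
    Integrable (fun g : Fin d → ℝ => |∑ i, v i * g i| ^ p) (gau d) ∧
    ∫ g : Fin d → ℝ, |∑ i, v i * g i| ^ p ∂gau d = Real.sqrt (∑ i, v i ^ 2) ^ p * gm p := by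
  have hm : Measurable (fun g : Fin d → ℝ => ∑ i, v i * g i) := by fun_prop
  have hF : Measurable (fun y : ℝ => |y| ^ p) := by fun_prop
  have hm2 : Measurable (fun x : ℝ => Real.sqrt (∑ i, v i ^ 2) * x) := by fun_prop
  have hlaw := lspMom_law v
  have hmul : ∀ x : ℝ, |Real.sqrt (∑ i, v i ^ 2) * x| ^ p =
      Real.sqrt (∑ i, v i ^ 2) ^ p * |x| ^ p := by
    intro x
    rw [abs_mul, abs_of_nonneg (Real.sqrt_nonneg _),
      Real.mul_rpow (Real.sqrt_nonneg _) (abs_nonneg _)]
  constructor
  · have h1 : Integrable (fun y : ℝ => |y| ^ p)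
        ((gau d).map (fun g : Fin d → ℝ => ∑ i, v i * g i)) := by
      rw [hlaw, integrable_map_measure hF.aestronglyMeasurable hm2.aemeasurable]
      refine ((gm_int hp).const_mul (Real.sqrt (∑ i, v i ^ 2) ^ p)).congr ?_
      exact Filter.Eventually.of_forall fun x => (hmul x).symm
    rw [integrable_map_measure hF.aestronglyMeasurable hm.aemeasurable] at h1
    exact h1
  · have h1 : ∫ y, |y| ^ p ∂((gau d).map (fun g : Fin d → ℝ => ∑ i, v i * g i)) =
        ∫ g : Fin d → ℝ, |∑ i, v i * g i| ^ p ∂gau d :=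
      integral_map hm.aemeasurable hF.aestronglyMeasurable
    rw [← h1, hlaw, integral_map hm2.aemeasurable hF.aestronglyMeasurable]
    simp only [hmul]
    rw [integral_const_mul]
    rfl

end Pool.Agent.Lib.MP_29b1bb_gt.LP
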