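import Pool.Agent.Lib.MP_29b1bb_gt.LP.Phi
import Pool.Agent.Lib.MP_29b1bb_gt.LP.Mom

/-!
# LP-Fub: the Gaussian mean of `phi`

`∑_i (B g)_i f_i(ω) = ∑_j g_j (∑_i B_ij f_i(ω))`. For fixed `ω` `gau_moment` with
`v_j = ∑_i B_ij f_i(ω)` gives `∫ |…|^p dγ = √(∑ v_j²)^p gm p`. Fubini
(`integral_integral_swap`, `integrable_prod_iff'`: the function `(g, ω) ↦ |∑ …|^p` is a.e. strongly
measurable, replace `f i` by `(hf i).1.mk`; for a.e. `ω` integrable in `g` and the integral of the
norm is `√(…)^p gm p`, integrable by `sq_int`).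
-/

set_option autoImplicit false

open MeasureTheory Set

namespace Pool.Agent.Lib.MP_29b1bb_gt.LP

private theorem fub_meas {Ω : Type*} [MeasurableSpace Ω] (ν : Measure Ω) [SigmaFinite ν] {p : ℝ} {d : ℕ}
    (f : Fin d → Ω → ℝ) (hp : 1 ≤ p) (hf : ∀ i, MemLp (f i) (ENNReal.ofReal p) ν)
    (hm : ∀ i, Measurable (f i)) (B : Matrix (Fin d) (Fin d) ℝ) :
    Integrable (fun g => phi ν p f (B.mulVec g)) (gau d) ∧
    ∫ g, phi ν p f (B.mulVec g) ∂gau d = gm p * sq ν p f B := by
  have hp0 : 0 < p := by linarith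
  set F : (Fin d → ℝ) × Ω → ℝ := fun z => |∑ j, (∑ i, B i j * f i z.2) * z.1 j| ^ p with hF
  have hFm : Measurable F := by
    rw [hF]
    refine Measurable.pow_const ?_ p
    refine Measurable.norm (f := fun z : (Fin d → ℝ) × Ω => ∑ j, (∑ i, B i j * f i z.2) * z.1 j) ?_
    refine Finset.measurable_fun_sum _ fun j _ => ?_
    refine Measurable.mul ?_ ((measurable_pi_apply j).comp measurable_fst)
    refine Finset.measurable_fun_sum _ fun i _ => ?_
    exact ((hm i).comp measurable_snd).const_mul _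
  have hF0 : ∀ z, 0 ≤ F z := fun z => Real.rpow_nonneg (abs_nonneg _) _
  have hnorm : ∀ z, ‖F z‖ = F z := fun z => by rw [Real.norm_eq_abs, abs_of_nonneg (hF0 z)]
  have h1 : ∀ ω : Ω, Integrable (fun g => F (g, ω)) (gau d) := fun ω =>
    (gau_moment (fun j => ∑ i, B i j * f i ω) hp0).1
  have h2 : ∀ ω : Ω, ∫ g, F (g, ω) ∂gau d = Real.sqrt (∑ j, (∑ i, B i j * f i ω) ^ 2) ^ p * gm p := fun ω =>
    (gau_moment (fun j => ∑ i, B i j * f i ω) hp0).2
  have h3 : Integrable F ((gau d).prod ν) := by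
    rw [integrable_prod_iff' hFm.aestronglyMeasurable]
    refine ⟨Filter.Eventually.of_forall h1, ?_⟩
    simp only [hnorm, h2]
    exact (sq_int hp hf B).mul_const (gm p)
  have h4 : ∀ g : Fin d → ℝ, phi ν p f (B.mulVec g) = ∫ ω, F (g, ω) ∂ν := by
    intro g
    unfold phi
    refine integral_congr_ae (Filter.Eventually.of_forall fun ω => ?_)
    show |∑ i, (B.mulVec g) i * f i ω| ^ p = |∑ j, (∑ i, B i j * f i ω) * g j| ^ p
    congr 2
    simp only [Matrix.mulVec, dotProduct, Finset.sum_mul]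
    rw [Finset.sum_comm]
    refine Finset.sum_congr rfl fun j _ => Finset.sum_congr rfl fun i _ => ?_
    ring
  constructor
  · simp only [h4]
    exact h3.integral_prod_left
  · simp only [h4]
    rw [integral_integral_swap (f := fun g ω => F (g, ω)) h3]
    simp only [h2]
    rw [integral_mul_const, mul_comm]
    rfl

theorem gau_phi {Ω : Type*} [MeasurableSpace Ω] (ν : Measure Ω) [SigmaFinite ν] {p : ℝ} {d : ℕ}
    (f : Fin d → Ω → ℝ) (hp : 1 ≤ p) (hf : ∀ i, MemLp (f i) (ENNReal.ofReal p) ν)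
    (B : Matrix (Fin d) (Fin d) ℝ) :
    Integrable (fun g => phi ν p f (B.mulVec g)) (gau d) ∧
    ∫ g, phi ν p f (B.mulVec g) ∂gau d = gm p * sq ν p f B := by
  set f' : Fin d → Ω → ℝ := fun i => (hf i).1.mk (f i) with hf'
  have h1 : ∀ i, f i =ᵐ[ν] f' i := fun i => (hf i).1.ae_eq_mk
  have h2 : ∀ᵐ ω ∂ν, ∀ i, f i ω = f' i ω := ae_all_iff.2 h1
  have h3 : ∀ x : Fin d → ℝ, phi ν p f x = phi ν p f' x := by
    intro x
    unfold phi
    refine integral_congr_ae ?_
    filter_upwards [h2] with ω hω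
    simp only [hω]
  have h4 : sq ν p f B = sq ν p f' B := by
    unfold sq
    refine integral_congr_ae ?_
    filter_upwards [h2] with ω hω
    simp only [hω]
  simp only [h3, h4]
  exact fub_meas ν f' hp (fun i => (hf i).ae_eq (h1 i)) (fun i => (hf i).1.stronglyMeasurable_mk.measurable) B

end Pool.Agent.Lib.MP_29b1bb_gt.LP
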