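import Mathlib

/-!
# LP-Gam: an upper bound of the Gamma function

`Γ(1+x) = ∫_0^∞ t^x e^{-t} dt`. With `θ = 1/(x+1)`: `t^x e^{-(1-θ)t} ≤ (x/(e(1-θ)))^x` for `t > 0`
(maximum at `t = x/(1-θ)`; i.e. `log u ≤ u - 1` for `u = (1-θ)t/x`), so
`Γ(1+x) ≤ (x/(e(1-θ)))^x ∫ e^{-θt} dt = (x/e)^x (1+1/x)^x (x+1) ≤ e (x+1) (x/e)^x`
(`(1-θ) = x/(x+1)`, `(1+1/x)^x ≤ e`).
-/

set_option autoImplicit false

open MeasureTheory Set

namespace Pool.Agent.Lib.MP_29b1bb_gt.LP

theorem Gamma_le {x : ℝ} (hx : 0 < x) :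
    Real.Gamma (1 + x) ≤ Real.exp 1 * (x + 1) * (x / Real.exp 1) ^ x := by
  have hx1 : 0 < x + 1 := by linarith
  have he : 0 < Real.exp 1 := Real.exp_pos 1
  -- pointwise bound
  have hpt : ∀ t ∈ Ioi (0 : ℝ), Real.exp (-t) * t ^ (1 + x - 1) ≤
      ((x + 1) / Real.exp 1) ^ x * Real.exp (-(1 / (x + 1)) * t) := by
    intro t ht
    have ht0 : 0 < t := ht
    have e1 : 1 + x - 1 = x := by ring
    rw [e1, Real.rpow_def_of_pos ht0, Real.rpow_def_of_pos (by positivity), ← Real.exp_add,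
      ← Real.exp_add, Real.exp_le_exp, Real.log_div hx1.ne' he.ne', Real.log_exp]
    have h1 := Real.log_le_sub_one_of_pos (div_pos ht0 hx1)
    rw [Real.log_div ht0.ne' hx1.ne'] at h1
    have h2 := mul_le_mul_of_nonneg_left h1 hx.le
    have h3 : x * (t / (x + 1) - 1) = t - 1 / (x + 1) * t - x := by
      field_simp
      ring
    rw [h3] at h2
    linarith
  have hint : IntegrableOn (fun t : ℝ => Real.exp (-(1 / (x + 1)) * t)) (Ioi 0) := by
    have := integrableOn_exp_mul_Ioi (a := -(1 / (x + 1))) (by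
      have : 0 < 1 / (x + 1) := by positivity
      linarith) 0
    exact this
  have h1 : Real.Gamma (1 + x) ≤ ∫ t in Ioi (0 : ℝ),
      ((x + 1) / Real.exp 1) ^ x * Real.exp (-(1 / (x + 1)) * t) := by
    rw [Real.Gamma_eq_integral (by linarith)]
    refine setIntegral_mono_on (Real.GammaIntegral_convergent (by linarith)) (hint.const_mul _)
      measurableSet_Ioi hpt
  have h2 : ∫ t in Ioi (0 : ℝ), ((x + 1) / Real.exp 1) ^ x * Real.exp (-(1 / (x + 1)) * t) =
      ((x + 1) / Real.exp 1) ^ x * (x + 1) := by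
    rw [integral_const_mul, integral_exp_mul_Ioi (by
      have : 0 < 1 / (x + 1) := by positivity
      linarith)]
    congr 1
    rw [mul_zero, Real.exp_zero]
    field_simp
  rw [h2] at h1
  refine h1.trans ?_
  have h3 : ((x + 1) / Real.exp 1) ^ x ≤ Real.exp 1 * (x / Real.exp 1) ^ x := by
    have h4 : (x + 1) / Real.exp 1 = (1 + 1 / x) * (x / Real.exp 1) := by
      field_simp
    rw [h4, Real.mul_rpow (by positivity) (by positivity)]
    refine mul_le_mul_of_nonneg_right ?_ (by positivity)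
    rw [Real.rpow_def_of_pos (by positivity), Real.exp_le_exp]
    have h5 : Real.log (1 + 1 / x) ≤ 1 / x := by
      have := Real.log_le_sub_one_of_pos (show 0 < 1 + 1 / x by positivity)
      linarith
    calc Real.log (1 + 1 / x) * x ≤ 1 / x * x := mul_le_mul_of_nonneg_right h5 hx.le
      _ = 1 := by field_simp
  calc ((x + 1) / Real.exp 1) ^ x * (x + 1) ≤ Real.exp 1 * (x / Real.exp 1) ^ x * (x + 1) :=
        mul_le_mul_of_nonneg_right h3 hx1.le
    _ = Real.exp 1 * (x + 1) * (x / Real.exp 1) ^ x := by ring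

end Pool.Agent.Lib.MP_29b1bb_gt.LP
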