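import Pool.Agent.Lib.MP_29b1bb_gt.LP.Tra

/-!
# LP-Gap: the inequalities with an exponential factor
-/

set_option autoImplicit false

open MeasureTheory Set

namespace Pool.Agent.Lib.MP_29b1bb_gt.LP

/-- The mean volume of a simplex is positive. -/
theorem scMean_simplex_pos {d : ℕ} (p : Fin (d + 1) → EuclideanSpace ℝ (Fin d))
    (hp : AffineIndependent ℝ p) (hv : 0 < (volume (convexHull ℝ (Set.range p))).toReal) :
    0 < scMean d (convexHull ℝ (Set.range p)) := by
  refine lt_of_lt_of_le ?_ (sc_simplex p hp)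
  refine mul_pos hv (div_pos (Finset.prod_pos fun k _ => ?_) (by positivity))
  unfold scC
  positivity

/-- `EV(K) ≤ ((e + o(1)) L_K)^d EV(S)`. -/
theorem sc_gap (b : ℝ) (hb : 0 < b) (hb1 : b < 1) : ∃ d₀ : ℕ, ∀ d : ℕ, d₀ ≤ d →
    ∀ (K : Set (EuclideanSpace ℝ (Fin d))) (p : Fin (d + 1) → EuclideanSpace ℝ (Fin d)),
      IsCompact K → (interior K).Nonempty → AffineIndependent ℝ p →
      volume K = volume (convexHull ℝ (Set.range p)) →
      b ^ d * (scMean d K * (volume K).toReal) ≤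
        Real.exp 1 ^ d * Real.sqrt (scCov d K).det * scMean d (convexHull ℝ (Set.range p)) := by
  obtain ⟨d₀, h₀⟩ := scN (1 - b) (by linarith) (by linarith)
  refine ⟨d₀, fun d hd K p hK hi hp hvol => ?_⟩
  have hN := h₀ d hd
  have hup := scUp d K hK hi
  have hlow := sc_simplex p hp
  rw [← hvol] at hlow
  set v : ℝ := (volume K).toReal with hv
  have hv0 : 0 ≤ v := ENNReal.toReal_nonneg
  set c : ℝ := ((d : ℝ) + 1) / (d.factorial : ℝ) with hc
  have hc0 : 0 ≤ c := by positivity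
  set D : ℝ := Real.sqrt (scCov d K).det with hD
  have hD0 : 0 ≤ D := Real.sqrt_nonneg _
  have h1 : scMean d K ≤ Real.sqrt c * D := by
    have h := Real.abs_le_sqrt hup
    rw [Real.sqrt_mul hc0] at h
    exact (le_abs_self _).trans h
  have h3 : (0 : ℝ) < ((d : ℝ) + 1) ^ (d + 1) := by positivity
  set G : ℝ := (∏ k ∈ Finset.range (d + 1), scC (k + 1)) / ((d : ℝ) + 1) ^ (d + 1) with hG
  have h4 : Real.sqrt c * (b / Real.exp 1) ^ d ≤ G := by
    rw [hG, le_div_iff₀ h3]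
    have h5 : 1 - (1 - b) = b := by ring
    rw [h5] at hN
    exact hN
  have he : Real.exp 1 ^ d * (b / Real.exp 1) ^ d = b ^ d := by
    rw [← mul_pow]
    congr 1
    field_simp
  calc b ^ d * (scMean d K * v) ≤ b ^ d * (Real.sqrt c * D * v) := by gcongr
    _ = Real.exp 1 ^ d * D * (v * (Real.sqrt c * (b / Real.exp 1) ^ d)) := by
        rw [← he]; ring
    _ ≤ Real.exp 1 ^ d * D * (v * G) := by gcongr
    _ ≤ Real.exp 1 ^ d * D * scMean d (convexHull ℝ (Set.range p)) := by gcongr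

/-- `√(2π e) = e √(2π/e)`. -/
theorem sqrt_two_pi_e : Real.sqrt (2 * Real.pi * Real.exp 1) =
    Real.exp 1 * Real.sqrt (2 * Real.pi / Real.exp 1) := by
  have hE : 0 < Real.exp 1 := Real.exp_pos 1
  have h1 : 2 * Real.pi * Real.exp 1 = Real.exp 1 ^ 2 * (2 * Real.pi / Real.exp 1) := by
    field_simp
  rw [h1, Real.sqrt_mul (by positivity), Real.sqrt_sq hE.le]

/-- polynomial against exponential -/
theorem poly_gap (b : ℝ) (hb : 0 < b) (hb1 : b < 1) : ∃ b' : ℝ, b < b' ∧ b' < 1 ∧ ∃ d₀ : ℕ,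
    ∀ d : ℕ, d₀ ≤ d → b ^ d * (Real.exp 1 * ((d : ℝ) + 1)) ≤ b' ^ d := by
  refine ⟨(b + 1) / 2, by linarith, by linarith, ?_⟩
  set b' : ℝ := (b + 1) / 2 with hb'
  have hb'0 : 0 < b' := by rw [hb']; linarith
  have hbb : b < b' := by rw [hb']; linarith
  set s : ℝ := b / b' with hs
  have hs0 : 0 ≤ s := by positivity
  have hs1 : s < 1 := (div_lt_one hb'0).2 hbb
  have h3 : Filter.Tendsto (fun n : ℕ => Real.exp 1 * ((n : ℝ) * s ^ n + s ^ n)) Filter.atTop
      (nhds (Real.exp 1 * (0 + 0))) :=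
    ((tendsto_self_mul_const_pow_of_lt_one hs0 hs1).add
      (tendsto_pow_atTop_nhds_zero_of_lt_one hs0 hs1)).const_mul _
  have h4 : ∀ᶠ n : ℕ in Filter.atTop, Real.exp 1 * ((n : ℝ) * s ^ n + s ^ n) < 1 :=
    h3.eventually (gt_mem_nhds (by simp))
  obtain ⟨d₀, hd⟩ := Filter.eventually_atTop.1 h4
  refine ⟨d₀, fun d hdd => ?_⟩
  have h5 := hd d hdd
  have h6 : b = s * b' := by rw [hs]; field_simp
  rw [h6, mul_pow]
  calc s ^ d * b' ^ d * (Real.exp 1 * ((d : ℝ) + 1))
      = (Real.exp 1 * ((d : ℝ) * s ^ d + s ^ d)) * b' ^ d := by ring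
    _ ≤ 1 * b' ^ d := mul_le_mul_of_nonneg_right h5.le (by positivity)
    _ = b' ^ d := one_mul _

/-- Bodies in unit balls of subspaces of `L_p`. -/
theorem lp_gap (b : ℝ) (hb : 0 < b) (hb1 : b < 1) :
    ∃ d₀ : ℕ, ∀ d : ℕ, d₀ ≤ d →
      ∀ (Ω : Type*) [MeasurableSpace Ω] (ν : Measure Ω) [SigmaFinite ν] (p c : ℝ)
        (f : Fin d → Ω → ℝ) (K : Set (EuclideanSpace ℝ (Fin d)))
        (z : EuclideanSpace ℝ (Fin d))
        (r : Fin (d + 1) → EuclideanSpace ℝ (Fin d)),
        1 ≤ p → (∀ i, MemLp (f i) (ENNReal.ofReal p) ν) →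
        IsCompact K → (interior K).Nonempty → (∀ x ∈ K, x - z ∈ uball ν p f) →
        (p < 2 → Convex ℝ K ∧ ∀ x ∈ K, (2 : ℝ) • z - x ∈ K) →
        0 ≤ c → volume (uball ν p f) ≤ ENNReal.ofReal (c ^ d) * volume K →
        AffineIndependent ℝ r → volume K = volume (convexHull ℝ (Set.range r)) →
        b ^ d * scMean d K ≤
          (c * (kap p * gm p ^ (1 / p)) / Real.sqrt (2 * Real.pi / Real.exp 1)) ^ d *
            scMean d (convexHull ℝ (Set.range r)) := by
  obtain ⟨b', hbb', hb'1, d₁, h₁⟩ := poly_gap b hb hb1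
  have hb'0 : 0 < b' := hb.trans hbb'
  obtain ⟨d₂, h₂⟩ := sc_gap b' hb'0 hb'1
  refine ⟨max 1 (max d₁ d₂), ?_⟩
  intro d hd Ω _ ν _ p c f K z r hp hf hK hi hsub hsym hc hvolL hr hvol
  have hd1 : 0 < d := by omega
  have hgap := h₂ d (by omega) K r hK hi hr hvol
  have hpoly := h₁ d (by omega)
  set K' := (fun x => x + z) ⁻¹' K with hK'
  have hvK : volume K' = volume K := vol_tra K z
  have hK'eq : K' = (Homeomorph.addRight z) ⁻¹' K := rfl
  have hK'c : IsCompact K' := by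
    rw [hK'eq]
    exact (Homeomorph.isCompact_preimage _).mpr hK
  have hK'i : (interior K').Nonempty := by
    rw [hK'eq, ← Homeomorph.preimage_interior]
    obtain ⟨y, hy⟩ := hi
    refine ⟨y - z, ?_⟩
    show (y - z) + z ∈ interior K
    rwa [sub_add_cancel]
  have hK'sub : K' ⊆ uball ν p f := by
    intro x hx
    have := hsub (x + z) hx
    rwa [add_sub_cancel_right] at this
  have hK'sym : p < 2 → Convex ℝ K' ∧ ∀ x ∈ K', -x ∈ K' := by
    intro h
    obtain ⟨h1, h2⟩ := hsym h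
    refine ⟨h1.translate_preimage_left z, ?_⟩
    intro x hx
    have h3 := h2 (x + z) hx
    show -x + z ∈ K
    have h4 : (2 : ℝ) • z - (x + z) = -x + z := by
      rw [two_smul]
      abel
    rwa [h4] at h3
  have hK0 : volume K ≠ 0 := (Measure.measure_pos_of_nonempty_interior _ hi).ne'
  have hKt : volume K ≠ ⊤ := hK.measure_lt_top.ne
  have hVpos : 0 < (volume K).toReal := ENNReal.toReal_pos hK0 hKt
  have hfin : volume (uball ν p f) ≠ ⊤ :=
    ne_top_of_le_ne_top (ENNReal.mul_ne_top ENNReal.ofReal_ne_top hKt) hvolL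
  have hVle : (volume (uball ν p f)).toReal ≤ c ^ d * (volume K).toReal := by
    have := ENNReal.toReal_mono (ENNReal.mul_ne_top ENNReal.ofReal_ne_top hKt) hvolL
    rwa [ENNReal.toReal_mul, ENNReal.toReal_ofReal (pow_nonneg hc d)] at this
  have hg : 0 < gm p := gm_pos (by linarith)
  have hkp : 0 ≤ kap p := by
    unfold kap
    split_ifs
    · exact Real.sqrt_nonneg 2
    · exact zero_le_one
  have hcore := core ν hd1 f hp hf K' hK'c hK'i hK'sub hK'sym hfin
  rw [cov_tra K hK hi z] at hcore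
  set κ := kap p * gm p ^ (1 / p) with hκ
  have hκ0 : 0 ≤ κ := mul_nonneg hkp (Real.rpow_nonneg hg.le _)
  set s := Real.sqrt (2 * Real.pi / Real.exp 1) with hs
  have hs0 : 0 < s := Real.sqrt_pos.mpr (by positivity)
  rw [sqrt_two_pi_e, ← hs] at hcore
  set L := (volume (uball ν p f)).toReal with hL
  have hL0 : 0 ≤ L := ENNReal.toReal_nonneg
  have hnn : 0 ≤ L * (Real.exp 1 * ((d : ℝ) + 1)) * (κ / (Real.exp 1 * s)) ^ d := by positivity
  have hsq : Real.sqrt (scCov d K).det ≤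
      L * (Real.exp 1 * ((d : ℝ) + 1)) * (κ / (Real.exp 1 * s)) ^ d := by
    have h := Real.sqrt_le_sqrt hcore
    rwa [Real.sqrt_sq hnn] at h
  set M := scMean d (convexHull ℝ (Set.range r)) with hM
  have hM0 : 0 ≤ M := by
    rw [hM]
    unfold scMean
    exact div_nonneg (integral_nonneg fun _ => ENNReal.toReal_nonneg)
      (pow_nonneg ENNReal.toReal_nonneg _)
  have hee : Real.exp 1 ^ d * (κ / (Real.exp 1 * s)) ^ d = (κ / s) ^ d := by
    rw [← mul_pow]
    congr 1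
    field_simp
  -- the inequality times `b' ^ d * |K|`
  have hmain : b' ^ d * (scMean d K * (volume K).toReal) ≤
      (Real.exp 1 * ((d : ℝ) + 1)) * ((c * κ / s) ^ d * M) * (volume K).toReal := by
    calc b' ^ d * (scMean d K * (volume K).toReal)
        ≤ Real.exp 1 ^ d * Real.sqrt (scCov d K).det * M := hgap
      _ ≤ Real.exp 1 ^ d * (L * (Real.exp 1 * ((d : ℝ) + 1)) * (κ / (Real.exp 1 * s)) ^ d) *
          M := by gcongr
      _ = L * ((Real.exp 1 * ((d : ℝ) + 1)) * (κ / s) ^ d * M) := by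
          rw [← hee]; ring
      _ ≤ (c ^ d * (volume K).toReal) * ((Real.exp 1 * ((d : ℝ) + 1)) * (κ / s) ^ d * M) := by
          gcongr
      _ = (Real.exp 1 * ((d : ℝ) + 1)) * ((c * κ / s) ^ d * M) * (volume K).toReal := by
          rw [mul_div_assoc c κ s, mul_pow c]; ring
  have hmain2 : b' ^ d * scMean d K ≤
      (Real.exp 1 * ((d : ℝ) + 1)) * ((c * κ / s) ^ d * M) := by
    have h1 : b' ^ d * scMean d K * (volume K).toReal ≤
        (Real.exp 1 * ((d : ℝ) + 1)) * ((c * κ / s) ^ d * M) * (volume K).toReal := by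
      rw [mul_assoc]; exact hmain
    exact le_of_mul_le_mul_right h1 hVpos
  -- insert the gap between `b` and `b'`
  have hee0 : 0 < Real.exp 1 * ((d : ℝ) + 1) := by positivity
  have hKm : 0 ≤ scMean d K := by
    unfold scMean
    exact div_nonneg (integral_nonneg fun _ => ENNReal.toReal_nonneg)
      (pow_nonneg ENNReal.toReal_nonneg _)
  have h2 : (Real.exp 1 * ((d : ℝ) + 1)) * (b ^ d * scMean d K) ≤
      (Real.exp 1 * ((d : ℝ) + 1)) * ((c * κ / s) ^ d * M) := by
    calc (Real.exp 1 * ((d : ℝ) + 1)) * (b ^ d * scMean d K)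
        = (b ^ d * (Real.exp 1 * ((d : ℝ) + 1))) * scMean d K := by ring
      _ ≤ b' ^ d * scMean d K := by gcongr
      _ ≤ _ := hmain2
  exact le_of_mul_le_mul_left h2 hee0

end Pool.Agent.Lib.MP_29b1bb_gt.LP
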