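import Pool.Agent.Lib.MP_29b1bb_gt.LP.Defs

/-!
# LP-Gau: Gaussian lower bound of `∫ e^{-Φ}`

`∫⁻ e^{-Φ(x)} dx = |det B| ∫⁻ e^{-Φ(B g)} dg` (change of variables: `Real.map_matrix_volume_pi_eq_smul_volume_pi`
or `Measure.map_linearMap_addHaar_eq_smul_addHaar`), and `dg = (2π)^{d/2} e^{|g|²/2} dγ(g)`:
`gau d = (volume : Measure (Fin d → ℝ)).withDensity (∏ gaussianPDF 0 1 (g i))`
(`Measure.pi` of `withDensity`; or start with the product form and `MeasureTheory.pi_withDensity`-like
lemma; `Gam.lean` of this row proves `gam_eq_withDensity` in the same way by `Measure.pi_eq`). So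
`∫⁻ e^{-Φ} = |det B| (2π)^{d/2} ∫⁻ e^{h(g)} dγ(g)`, `h(g) = |g|²/2 - Φ(B g)`. If the last integral is
infinite nothing is to be proved; otherwise Jensen (`ConvexOn.map_integral_le` for `exp`, or
directly `e^h ≥ e^m (1 + h - m)`, `m = ∫ h dγ`; the latter needs only integrability of `h` and a
lower bound of `∫⁻`): `∫ e^h ≥ e^{∫ h}`, and `∫ |g|²/2 dγ = d/2` (`variance`/second moment of
`gaussianReal 0 1` is `1`). `√(2πe)^d = (2π)^{d/2} e^{d/2}`.
-/

set_option autoImplicit false

open MeasureTheory Set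

namespace Pool.Agent.Lib.MP_29b1bb_gt.LP

open ProbabilityTheory in
/-- the density of the Gaussian measure -/
theorem lspGau_density (d : ℕ) :
    gau d = (volume : Measure (Fin d → ℝ)).withDensity
      (fun g => ENNReal.ofReal (∏ i, gaussianPDFReal 0 1 (g i))) := by
  unfold gau
  refine Measure.pi_eq fun s hs => ?_
  have hsm : MeasurableSet (Set.pi univ s) := MeasurableSet.univ_pi hs
  rw [withDensity_apply _ hsm, volume_pi, Measure.restrict_pi_pi]
  have hint : Integrable (fun x : Fin d → ℝ => ∏ i, gaussianPDFReal 0 1 (x i))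
      (Measure.pi fun i => (volume : Measure ℝ).restrict (s i)) := by
    refine Integrable.fintype_prod (f := fun (_ : Fin d) (x : ℝ) => gaussianPDFReal 0 1 x)
      (μ := fun i => (volume : Measure ℝ).restrict (s i)) fun i => ?_
    exact (integrable_gaussianPDFReal 0 1).restrict
  rw [← ofReal_integral_eq_lintegral_ofReal hint
    (Filter.Eventually.of_forall fun x => Finset.prod_nonneg fun i _ => gaussianPDFReal_nonneg _ _ _),
    integral_fintype_prod_eq_prod (fun (_ : Fin d) (x : ℝ) => gaussianPDFReal 0 1 x),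
    ENNReal.ofReal_prod_of_nonneg]
  · exact Finset.prod_congr rfl fun i _ =>
      (gaussianReal_apply_eq_integral 0 one_ne_zero (s i)).symm
  · intro i _
    exact integral_nonneg fun x => gaussianPDFReal_nonneg _ _ _

open ProbabilityTheory in
private theorem lspGau_prod {d : ℕ} (g : Fin d → ℝ) :
    ∏ i, gaussianPDFReal 0 1 (g i) =
      (Real.sqrt (2 * Real.pi) ^ d)⁻¹ * Real.exp (-((∑ i, g i ^ 2) / 2)) := by
  unfold gaussianPDFReal
  rw [Finset.prod_mul_distrib, Finset.prod_const, Finset.card_univ, Fintype.card_fin,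
    ← Real.exp_sum, inv_pow]
  congr 1
  · simp
  · congr 1
    rw [Finset.sum_div, ← Finset.sum_neg_distrib]
    refine Finset.sum_congr rfl fun i _ => ?_
    simp [neg_div]

/-- Lebesgue integrals in terms of the Gaussian measure -/
private theorem lspGau_lint {d : ℕ} (F : (Fin d → ℝ) → ENNReal) (hF : Measurable F) :
    ∫⁻ g, F g = ∫⁻ g, F g * ENNReal.ofReal
      (Real.sqrt (2 * Real.pi) ^ d * Real.exp ((∑ i, g i ^ 2) / 2)) ∂gau d := by
  have hρ : Measurable (fun g : Fin d → ℝ =>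
      ENNReal.ofReal (∏ i, ProbabilityTheory.gaussianPDFReal 0 1 (g i))) := by
    refine ENNReal.measurable_ofReal.comp ?_
    refine Finset.measurable_prod _ fun i _ => ?_
    exact (ProbabilityTheory.measurable_gaussianPDFReal 0 1).comp (measurable_pi_apply i)
  have hw : Measurable (fun g : Fin d → ℝ => ENNReal.ofReal
      (Real.sqrt (2 * Real.pi) ^ d * Real.exp ((∑ i, g i ^ 2) / 2))) := by fun_prop
  have h0 := lintegral_withDensity_eq_lintegral_mul (volume : Measure (Fin d → ℝ)) hρ (hF.mul hw)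
  rw [lspGau_density]
  refine Eq.trans ?_ h0.symm
  refine lintegral_congr fun g => ?_
  rw [Pi.mul_apply, Pi.mul_apply, mul_left_comm, ← ENNReal.ofReal_mul (Finset.prod_nonneg fun i _ =>
    ProbabilityTheory.gaussianPDFReal_nonneg _ _ _), lspGau_prod]
  have h1 : 0 < Real.sqrt (2 * Real.pi) ^ d := by positivity
  have h2 : (Real.sqrt (2 * Real.pi) ^ d)⁻¹ * Real.exp (-((∑ i, g i ^ 2) / 2)) *
      (Real.sqrt (2 * Real.pi) ^ d * Real.exp ((∑ i, g i ^ 2) / 2)) = 1 := by
    rw [Real.exp_neg]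
    field_simp
  rw [h2, ENNReal.ofReal_one, mul_one]

private theorem lspGau_cov {d : ℕ} (B : Matrix (Fin d) (Fin d) ℝ) (hB : B.det ≠ 0)
    (F : (Fin d → ℝ) → ENNReal) (hF : Measurable F) :
    ∫⁻ x, F x = ENNReal.ofReal |B.det| * ∫⁻ g, F (B.mulVec g) := by
  have h1 := Real.map_matrix_volume_pi_eq_smul_volume_pi hB
  have hm : Measurable (Matrix.toLin' B) := by
    exact (LinearMap.continuous_of_finiteDimensional _).measurable
  have h2 : ∫⁻ g, F (B.mulVec g) = ∫⁻ x, F x ∂(Measure.map (Matrix.toLin' B) volume) := by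
    rw [lintegral_map hF hm]
    rfl
  rw [h2, h1, lintegral_smul_measure, smul_eq_mul, ← mul_assoc, ← ENNReal.ofReal_mul (abs_nonneg _),
    ← abs_mul, mul_inv_cancel₀ hB, abs_one, ENNReal.ofReal_one, one_mul]

private theorem lspGau_ofReal_integral_le {α : Type*} [MeasurableSpace α] {μ : Measure α}
    {f : α → ℝ} (hf : Integrable f μ) :
    ENNReal.ofReal (∫ a, f a ∂μ) ≤ ∫⁻ a, ENNReal.ofReal (f a) ∂μ := by
  rw [integral_eq_lintegral_pos_part_sub_lintegral_neg_part hf]
  refine (ENNReal.ofReal_le_ofReal (sub_le_self _ ENNReal.toReal_nonneg)).trans ?_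
  exact ENNReal.ofReal_toReal_le

private theorem lspGau_jensen {d : ℕ} (h : (Fin d → ℝ) → ℝ) (hh : Integrable h (gau d)) :
    ENNReal.ofReal (Real.exp (∫ g, h g ∂gau d)) ≤ ∫⁻ g, ENNReal.ofReal (Real.exp (h g)) ∂gau d := by
  obtain ⟨m, hm⟩ : ∃ m : ℝ, m = ∫ g, h g ∂gau d := ⟨_, rfl⟩
  rw [← hm]
  have hi : Integrable (fun g => Real.exp m * (1 + h g - m)) (gau d) := by
    refine Integrable.const_mul ?_ _
    exact ((integrable_const _).add hh).sub (integrable_const _)
  have h1 : ∫ g, Real.exp m * (1 + h g - m) ∂gau d = Real.exp m := by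
    have e1 : ∀ g, Real.exp m * (1 + h g - m) = Real.exp m * (h g + (1 - m)) := fun g => by ring
    simp_rw [e1]
    rw [integral_const_mul, integral_add hh (integrable_const _), ← hm]
    simp
  calc ENNReal.ofReal (Real.exp m) = ENNReal.ofReal (∫ g, Real.exp m * (1 + h g - m) ∂gau d) := by
        rw [h1]
    _ ≤ ∫⁻ g, ENNReal.ofReal (Real.exp m * (1 + h g - m)) ∂gau d := lspGau_ofReal_integral_le hi
    _ ≤ _ := by
        refine lintegral_mono fun g => ENNReal.ofReal_le_ofReal ?_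
        have h2 : Real.exp (h g) = Real.exp m * Real.exp (h g - m) := by
          rw [← Real.exp_add]; congr 1; ring
        rw [h2]
        refine mul_le_mul_of_nonneg_left ?_ (Real.exp_pos _).le
        have := Real.add_one_le_exp (h g - m)
        linarith

private theorem lspGau_sq_int {d : ℕ} (i : Fin d) :
    Integrable (fun g : Fin d → ℝ => g i ^ 2) (gau d) ∧ ∫ g, g i ^ 2 ∂gau d = 1 := by
  have hmp : MeasurePreserving (Function.eval i) (gau d) (ProbabilityTheory.gaussianReal 0 1) := by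
    unfold gau
    exact measurePreserving_eval (fun _ => ProbabilityTheory.gaussianReal 0 1) i
  have hi : Integrable (fun x : ℝ => x ^ 2) (ProbabilityTheory.gaussianReal 0 1) := by
    have := (ProbabilityTheory.memLp_id_gaussianReal' (μ := 0) (v := 1) 2 (by simp)).integrable_sq
    exact this
  have hv : ∫ x : ℝ, x ^ 2 ∂(ProbabilityTheory.gaussianReal 0 1) = 1 := by
    have h1 := ProbabilityTheory.variance_fun_id_gaussianReal (μ := 0) (v := 1)
    rw [ProbabilityTheory.variance_eq_integral measurable_id'.aemeasurable] at h1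
    simpa using h1
  constructor
  · exact (hmp.integrable_comp hi.aestronglyMeasurable).2 hi
  · have h2 := integral_comp_eval (μ := fun _ : Fin d => ProbabilityTheory.gaussianReal 0 1) (i := i)
      (f := fun x : ℝ => x ^ 2) hi.aestronglyMeasurable
    rw [← hv]
    exact h2

theorem gau_lower {d : ℕ} (B : Matrix (Fin d) (Fin d) ℝ) (hB : B.det ≠ 0)
    (Φ : (Fin d → ℝ) → ℝ) (hm : Measurable Φ)
    (hi : Integrable (fun g => Φ (B.mulVec g)) (gau d)) :
    ENNReal.ofReal (Real.sqrt (2 * Real.pi * Real.exp 1) ^ d * |B.det| *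
      Real.exp (-∫ g, Φ (B.mulVec g) ∂gau d)) ≤ ∫⁻ x, ENNReal.ofReal (Real.exp (-Φ x)) := by
  have hmB : Measurable (fun g : Fin d → ℝ => B.mulVec g) :=
    (LinearMap.continuous_of_finiteDimensional (Matrix.toLin' B)).measurable
  have hF : Measurable (fun x => ENNReal.ofReal (Real.exp (-Φ x))) := by fun_prop
  have hF2 : Measurable (fun g => ENNReal.ofReal (Real.exp (-Φ (B.mulVec g)))) := by fun_prop
  have hs : Integrable (fun g : Fin d → ℝ => (∑ i, g i ^ 2) / 2) (gau d) :=
    (integrable_finsetSum _ fun i _ => (lspGau_sq_int i).1).div_const 2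
  have hs1 : ∫ g : Fin d → ℝ, (∑ i, g i ^ 2) / 2 ∂gau d = d / 2 := by
    rw [integral_div, integral_finsetSum _ fun i _ => (lspGau_sq_int i).1,
      Finset.sum_congr rfl fun i _ => (lspGau_sq_int i).2]
    simp
  have hh : Integrable (fun g : Fin d → ℝ => (∑ i, g i ^ 2) / 2 - Φ (B.mulVec g)) (gau d) :=
    hs.sub hi
  have hh1 : ∫ g : Fin d → ℝ, ((∑ i, g i ^ 2) / 2 - Φ (B.mulVec g)) ∂gau d =
      d / 2 - ∫ g, Φ (B.mulVec g) ∂gau d := by
    rw [integral_sub hs hi, hs1]
  have hj := lspGau_jensen _ hh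
  rw [hh1] at hj
  have hc : Real.sqrt (2 * Real.pi * Real.exp 1) ^ d =
      Real.sqrt (2 * Real.pi) ^ d * Real.exp (d / 2) := by
    rw [Real.sqrt_mul (by positivity), mul_pow]
    congr 1
    rw [← Real.exp_half, ← Real.exp_nat_mul]
    congr 1
    ring
  have hsplit : Real.sqrt (2 * Real.pi * Real.exp 1) ^ d * |B.det| *
      Real.exp (-∫ g, Φ (B.mulVec g) ∂gau d) = |B.det| * (Real.sqrt (2 * Real.pi) ^ d *
      Real.exp (d / 2 - ∫ g, Φ (B.mulVec g) ∂gau d)) := by
    rw [hc, sub_eq_add_neg, Real.exp_add]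
    ring
  have hsp : 0 ≤ Real.sqrt (2 * Real.pi) ^ d := by positivity
  rw [hsplit, lspGau_cov B hB _ hF, lspGau_lint _ hF2, ENNReal.ofReal_mul (abs_nonneg _),
    ENNReal.ofReal_mul hsp]
  refine mul_le_mul_right ?_ _
  calc ENNReal.ofReal (Real.sqrt (2 * Real.pi) ^ d) *
        ENNReal.ofReal (Real.exp (d / 2 - ∫ g, Φ (B.mulVec g) ∂gau d))
      ≤ ENNReal.ofReal (Real.sqrt (2 * Real.pi) ^ d) *
        ∫⁻ g, ENNReal.ofReal (Real.exp ((∑ i, g i ^ 2) / 2 - Φ (B.mulVec g))) ∂gau d := by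
        gcongr
    _ = ∫⁻ g, ENNReal.ofReal (Real.sqrt (2 * Real.pi) ^ d) *
        ENNReal.ofReal (Real.exp ((∑ i, g i ^ 2) / 2 - Φ (B.mulVec g))) ∂gau d := by
        rw [lintegral_const_mul]
        fun_prop
    _ = _ := by
        refine lintegral_congr fun g => ?_
        rw [← ENNReal.ofReal_mul hsp, ← ENNReal.ofReal_mul (Real.exp_pos _).le]
        congr 1
        rw [sub_eq_add_neg, Real.exp_add]
        ring

end Pool.Agent.Lib.MP_29b1bb_gt.LP
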