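import Pool.Agent.Lib.MP_29b1bb_gt.LP.Phi

/-!
# LP-Hol: Hölder's inequality for the law of the body

`μ` is a probability measure on `ℝ^d`, boundedly supported, with `phi ≤ 1` almost everywhere and
second moments `∫ x_i x_j dμ = (B Bᵀ)_ij`. For each `ω`:
`∑_j (∑_i B_ij f_i)² = ∑_{i,i'} (B Bᵀ)_{ii'} f_i f_i' = ∫ (∑ x_i f_i)² dμ(x)`.
* `p ≥ 2`: `(∫ Y² dμ)^{p/2} ≤ ∫ |Y|^p dμ` (Jensen for `t ↦ t^{p/2}`: `ConvexOn.map_integral_le`,
  `convexOn_rpow`; or monotonicity of `eLpNorm` in the exponent on a probability space,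
  `eLpNorm_le_eLpNorm_of_exponent_le`), `Y = ∑ x_i f_i(ω)`. Integrate over `ω`, Fubini
  (`integral_integral_swap`; the function is a.e. strongly measurable on the product and dominated by
  `(R ∑ |f_i|)^p`): `∫∫ |Y|^p dν dμ = ∫ phi dμ ≤ 1`.
* `1 ≤ p ≤ 2`: by the hypothesis `hkh` with `u = f(ω)`, `∫ Y² ≤ 2 (∫ |Y|)² ≤ 2 (∫ |Y|^p)^{2/p}`, so
  `(∫ Y²)^{p/2} ≤ 2^{p/2} ∫ |Y|^p`, and then as before.
-/

set_option autoImplicit false

open MeasureTheory Set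

namespace Pool.Agent.Lib.MP_29b1bb_gt.LP

variable {Ω : Type*} [MeasurableSpace Ω] (ν : Measure Ω) [SigmaFinite ν] {p : ℝ} {d : ℕ}
  (f : Fin d → Ω → ℝ) (μ : Measure (Fin d → ℝ)) [IsProbabilityMeasure μ]

omit [IsProbabilityMeasure μ] in
private theorem lspHol_coord (hμ : ∃ R : ℝ, ∀ᵐ x ∂μ, ∀ i, |x i| ≤ R) :
    ∃ R : ℝ, 0 ≤ R ∧ ∀ᵐ x ∂μ, ∀ i, |x i| ≤ R := by
  obtain ⟨R, hR⟩ := hμ
  refine ⟨max R 0, le_max_right _ _, ?_⟩
  filter_upwards [hR] with x hx i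
  exact (hx i).trans (le_max_left _ _)

/-- continuous functions are integrable -/
private theorem lspHol_int {g : (Fin d → ℝ) → ℝ} (hg : Continuous g)
    (hμ : ∃ R : ℝ, ∀ᵐ x ∂μ, ∀ i, |x i| ≤ R) : Integrable g μ := by
  obtain ⟨R, hR⟩ := hμ
  obtain ⟨M, hM⟩ := (isCompact_univ_pi fun _ : Fin d =>
    (isCompact_Icc : IsCompact (Icc (-R) R))).exists_bound_of_continuousOn hg.continuousOn
  refine Integrable.of_bound hg.aestronglyMeasurable M ?_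
  filter_upwards [hR] with x hx
  exact hM x fun i _ => abs_le.1 (hx i)

/-- the second moment -/
private theorem lspHol_sq (hμ : ∃ R : ℝ, ∀ᵐ x ∂μ, ∀ i, |x i| ≤ R)
    (B : Matrix (Fin d) (Fin d) ℝ)
    (hB : ∀ i j, ∫ x, x i * x j ∂μ = ∑ k, B i k * B j k) (v : Fin d → ℝ) :
    ∑ j, (∑ i, B i j * v i) ^ 2 = ∫ x, (∑ i, x i * v i) ^ 2 ∂μ := by
  have h1 : ∀ x : Fin d → ℝ, (∑ i, x i * v i) ^ 2 = ∑ i, ∑ j, (v i * v j) * (x i * x j) := by
    intro x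
    rw [pow_two, Finset.sum_mul_sum]
    refine Finset.sum_congr rfl fun i _ => Finset.sum_congr rfl fun j _ => ?_
    ring
  simp_rw [h1]
  rw [integral_finsetSum _ fun i _ => integrable_finsetSum _ fun j _ =>
    lspHol_int μ (by fun_prop) hμ]
  have h2 : ∀ i, ∫ x, ∑ j, (v i * v j) * (x i * x j) ∂μ = ∑ j, (v i * v j) *
      ∑ k, B i k * B j k := by
    intro i
    rw [integral_finsetSum _ fun j _ => lspHol_int μ (by fun_prop) hμ]
    refine Finset.sum_congr rfl fun j _ => ?_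
    rw [integral_const_mul, hB]
  calc ∑ k, ∑ i, ∑ j, (v i * v j) * (B i k * B j k)
      = ∑ i, ∑ k, ∑ j, (v i * v j) * (B i k * B j k) := Finset.sum_comm
    _ = ∑ i, ∑ j, (v i * v j) * ∑ k, B i k * B j k := by
        refine Finset.sum_congr rfl fun i _ => ?_
        rw [Finset.sum_comm]
        exact Finset.sum_congr rfl fun j _ => (Finset.mul_sum _ _ _).symm
    _ = ∑ i, ∫ x, ∑ j, (v i * v j) * (x i * x j) ∂μ :=
        Finset.sum_congr rfl fun i _ => (h2 i).symm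

/-- Fubini -/
private theorem lspHol_main (hp : 1 ≤ p) (hf : ∀ i, MemLp (f i) (ENNReal.ofReal p) ν)
    (hμ : ∃ R : ℝ, ∀ᵐ x ∂μ, ∀ i, |x i| ≤ R) (hΦ : ∀ᵐ x ∂μ, phi ν p f x ≤ 1)
    (B : Matrix (Fin d) (Fin d) ℝ) (C : ℝ) (hC : 0 ≤ C)
    (hpt : ∀ ω, Real.sqrt (∑ j, (∑ i, B i j * f i ω) ^ 2) ^ p ≤
      C * ∫ x, |∑ i, x i * f i ω| ^ p ∂μ) : sq ν p f B ≤ C := by
  obtain ⟨R, hR0, hR⟩ := lspHol_coord μ hμ
  have hp0 : 0 ≤ p := by linarith
  set g : (Fin d → ℝ) × Ω → ℝ := fun z => |∑ i, z.1 i * f i z.2| ^ p with hg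
  have hmeas : AEStronglyMeasurable g (μ.prod ν) := by
    have h1 : AEStronglyMeasurable (fun z : (Fin d → ℝ) × Ω => ∑ i, z.1 i * f i z.2)
        (μ.prod ν) := by
      refine Finset.aestronglyMeasurable_fun_sum _ fun i _ => ?_
      refine AEStronglyMeasurable.mul ?_ ?_
      · exact ((measurable_pi_apply i).comp measurable_fst).aestronglyMeasurable
      · exact (hf i).1.comp_snd
    have h2 : Continuous fun t : ℝ => |t| ^ p := continuous_abs.rpow_const fun _ => Or.inr hp0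
    exact h2.comp_aestronglyMeasurable h1
  -- the dominating function
  have hG : Integrable (fun ω => (abs (∑ i, R * abs (f i ω))) ^ p) ν := by
    have := phi_int (f := fun i ω => abs (f i ω)) hp (fun i => (hf i).abs) (fun _ => R)
    exact this
  have hG2 : Integrable (fun z : (Fin d → ℝ) × Ω => (abs (∑ i, R * abs (f i z.2))) ^ p)
      (μ.prod ν) :=
    hG.comp_snd μ
  have hint : Integrable g (μ.prod ν) := by
    refine hG2.mono' hmeas ?_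
    have h3 : ∀ᵐ z ∂(μ.prod ν), ∀ i, |z.1 i| ≤ R :=
      Measure.quasiMeasurePreserving_fst.ae hR
    filter_upwards [h3] with z hz
    rw [hg, Real.norm_eq_abs, abs_of_nonneg (Real.rpow_nonneg (abs_nonneg _) _)]
    refine Real.rpow_le_rpow (abs_nonneg _) ?_ hp0
    rw [abs_of_nonneg (Finset.sum_nonneg fun i _ => mul_nonneg hR0 (abs_nonneg _))]
    refine (Finset.abs_sum_le_sum_abs _ _).trans (Finset.sum_le_sum fun i _ => ?_)
    rw [abs_mul]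
    exact mul_le_mul_of_nonneg_right (hz i) (abs_nonneg _)
  have hswap : ∫ ω, ∫ x, |∑ i, x i * f i ω| ^ p ∂μ ∂ν = ∫ x, phi ν p f x ∂μ := by
    have := integral_integral_swap (μ := μ) (ν := ν)
      (f := fun (x : Fin d → ℝ) (ω : Ω) => |∑ i, x i * f i ω| ^ p) hint
    exact this.symm
  have hphi : Integrable (phi ν p f) μ := hint.integral_prod_left
  have hle1 : ∫ x, phi ν p f x ∂μ ≤ 1 := by
    calc ∫ x, phi ν p f x ∂μ ≤ ∫ _x, (1 : ℝ) ∂μ := integral_mono_ae hphi (integrable_const 1) hΦ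
      _ = 1 := by simp
  have hR2 : Integrable (fun ω => C * ∫ x, |∑ i, x i * f i ω| ^ p ∂μ) ν :=
    (hint.integral_prod_right).const_mul C
  calc sq ν p f B ≤ ∫ ω, C * ∫ x, |∑ i, x i * f i ω| ^ p ∂μ ∂ν := by
        unfold sq
        exact integral_mono (sq_int hp hf B) hR2 hpt
    _ = C * ∫ x, phi ν p f x ∂μ := by rw [integral_const_mul, hswap]
    _ ≤ C * 1 := mul_le_mul_of_nonneg_left hle1 hC
    _ = C := mul_one C

/-- Jensen -/
private theorem lspHol_jensen {q : ℝ} (hq : 1 ≤ q) (hμ : ∃ R : ℝ, ∀ᵐ x ∂μ, ∀ i, |x i| ≤ R)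
    (h : (Fin d → ℝ) → ℝ) (hh : Continuous h) (h0 : ∀ x, 0 ≤ h x) :
    (∫ x, h x ∂μ) ^ q ≤ ∫ x, h x ^ q ∂μ := by
  have hq0 : 0 ≤ q := by linarith
  have h1 : Continuous fun x => h x ^ q := hh.rpow_const fun _ => Or.inr hq0
  exact (convexOn_rpow hq).map_integral_le
    (f := h) (μ := μ) (s := Ici 0) (g := fun t : ℝ => t ^ q)
    (continuous_id.rpow_const fun _ => Or.inr hq0).continuousOn isClosed_Ici
    (Filter.Eventually.of_forall h0) (lspHol_int μ hh hμ) (lspHol_int μ h1 hμ)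

theorem hol_ge (hp : 2 ≤ p) (hf : ∀ i, MemLp (f i) (ENNReal.ofReal p) ν)
    (hμ : ∃ R : ℝ, ∀ᵐ x ∂μ, ∀ i, |x i| ≤ R) (hΦ : ∀ᵐ x ∂μ, phi ν p f x ≤ 1)
    (B : Matrix (Fin d) (Fin d) ℝ)
    (hB : ∀ i j, ∫ x, x i * x j ∂μ = ∑ k, B i k * B j k) : sq ν p f B ≤ 1 := by
  refine lspHol_main ν f μ (by linarith) hf hμ hΦ B 1 zero_le_one fun ω => ?_
  rw [one_mul, lspHol_sq μ hμ B hB (fun i => f i ω)]
  set Y : (Fin d → ℝ) → ℝ := fun x => ∑ i, x i * f i ω with hY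
  have hYc : Continuous Y := by fun_prop
  have h1 := lspHol_jensen μ (q := p / 2) (by linarith) hμ (fun x => Y x ^ 2) (by fun_prop)
    (fun x => sq_nonneg _)
  have h2 : ∀ x, (Y x ^ 2) ^ (p / 2) = |Y x| ^ p := by
    intro x
    rw [← sq_abs, ← Real.rpow_natCast, ← Real.rpow_mul (abs_nonneg _)]
    congr 1
    push_cast
    ring
  simp_rw [h2] at h1
  refine le_trans (le_of_eq ?_) h1
  rw [Real.sqrt_eq_rpow, ← Real.rpow_mul (integral_nonneg fun x => sq_nonneg _)]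
  congr 1
  ring

theorem hol_lt (hp : 1 ≤ p) (hp2 : p ≤ 2) (hf : ∀ i, MemLp (f i) (ENNReal.ofReal p) ν)
    (hμ : ∃ R : ℝ, ∀ᵐ x ∂μ, ∀ i, |x i| ≤ R) (hΦ : ∀ᵐ x ∂μ, phi ν p f x ≤ 1)
    (B : Matrix (Fin d) (Fin d) ℝ)
    (hB : ∀ i j, ∫ x, x i * x j ∂μ = ∑ k, B i k * B j k)
    (hkh : ∀ u : Fin d → ℝ, ∫ x, (∑ i, x i * u i) ^ 2 ∂μ ≤
      2 * (∫ x, |∑ i, x i * u i| ∂μ) ^ 2) : sq ν p f B ≤ 2 ^ (p / 2) := by
  have _ := hp2
  have hp0 : 0 ≤ p := by linarith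
  refine lspHol_main ν f μ hp hf hμ hΦ B (2 ^ (p / 2)) (by positivity) fun ω => ?_
  rw [lspHol_sq μ hμ B hB (fun i => f i ω)]
  set Y : (Fin d → ℝ) → ℝ := fun x => ∑ i, x i * f i ω with hY
  have hYc : Continuous Y := by fun_prop
  have h1 := lspHol_jensen μ (q := p) hp hμ (fun x => |Y x|) (by fun_prop) (fun x => abs_nonneg _)
  have h2 := hkh fun i => f i ω
  set m : ℝ := ∫ x, |Y x| ∂μ with hm
  have hm0 : 0 ≤ m := integral_nonneg fun x => abs_nonneg _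
  have h3 : Real.sqrt (∫ x, Y x ^ 2 ∂μ) ≤ Real.sqrt 2 * m := by
    rw [← Real.sqrt_sq hm0, ← Real.sqrt_mul (by norm_num)]
    exact Real.sqrt_le_sqrt h2
  calc Real.sqrt (∫ x, Y x ^ 2 ∂μ) ^ p ≤ (Real.sqrt 2 * m) ^ p :=
        Real.rpow_le_rpow (Real.sqrt_nonneg _) h3 hp0
    _ = 2 ^ (p / 2) * m ^ p := by
        rw [Real.mul_rpow (Real.sqrt_nonneg _) hm0, Real.sqrt_eq_rpow,
          ← Real.rpow_mul (by norm_num)]
        congr 2
        ring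
    _ ≤ 2 ^ (p / 2) * ∫ x, |Y x| ^ p ∂μ := mul_le_mul_of_nonneg_left h1 (by positivity)

end Pool.Agent.Lib.MP_29b1bb_gt.LP
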