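import Pool.Agent.Lib.MP_29b1bb_gt.LP.PLc

/-!
# LP-Khin: second and first moments of a linear functional on a symmetric convex body

`|K| ∫_K Y² ≤ 2 (∫_K |Y|)²`, `Y(x) = ∑ x_i u_i`, `K = -K` compact convex.
Proof. `F(t) = |K ∩ {Y ≥ t}|` (real, finite). For `x, y > 0`, `λ = x/(x+y)`:
`λ (K ∩ {Y ≥ x+y}) + (1-λ) (K ∩ {Y ≥ 0}) ⊆ K ∩ {Y ≥ x}`, so by `bm` `F(x+y)^λ F(0)^{1-λ} ≤ F(x)`, in the
same way `F(x+y)^{1-λ} F(0)^λ ≤ F(y)`, the product is `F(x+y) F(0) ≤ F(x) F(y)`. By symmetry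
(`x ↦ -x` preserves the volume) `2 F(0) ≥ |K|` (the two halves cover `K`), and
`∫_K |Y| ≥ …`: layer cake: `∫_K |Y| = ∫_0^∞ |K ∩ {|Y| > t}| dt = 2 ∫_0^∞ F(t) dt` for the strict or weak
inequality (they differ for countably many `t`; for `t > 0` the sets `{Y ≥ t}`, `{Y ≤ -t}` are disjoint
with the same volume), `∫_K Y² = ∫_0^∞ 2t |K ∩ {|Y| ≥ t}| dt = 4 ∫_0^∞ t F(t) dt
= 4 ∫_0^∞∫_0^∞ F(x+y) dx dy ≤ (4/F(0)) (∫_0^∞ F)²`. Hence
`|K| ∫_K Y² ≤ 2 F(0) · (4/F(0)) (∫ F)² = 8 (∫F)² = 2 (∫_K |Y|)²`. If `F(0) = 0` then `|K| = 0` and both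
sides are `0`. (`lintegral_eq_lintegral_meas_le`, `lintegral_comp_eq_lintegral_meas_le_mul`,
`∫_0^∞ t F(t) dt = ∫_0^∞ ∫_0^t F(t) ds dt` and Tonelli with the substitution `t = x + y`.)
-/

set_option autoImplicit false

open MeasureTheory Set

namespace Pool.Agent.Lib.MP_29b1bb_gt.LP

/-- the part of `K` where the functional is at least `t` -/
private def lspKhin_S {d : ℕ} (K : Set (Fin d → ℝ)) (u : Fin d → ℝ) (t : ℝ) : Set (Fin d → ℝ) :=
  K ∩ {x | t ≤ ∑ i, x i * u i}

private theorem lspKhin_comb {d : ℕ} (u x y : Fin d → ℝ) (a b : ℝ) :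
    ∑ i, (a • x + b • y) i * u i = a * ∑ i, x i * u i + b * ∑ i, y i * u i := by
  rw [Finset.mul_sum, Finset.mul_sum, ← Finset.sum_add_distrib]
  refine Finset.sum_congr rfl (fun i _ => ?_)
  simp only [Pi.add_apply, Pi.smul_apply, smul_eq_mul]
  ring

private theorem lspKhin_neg {d : ℕ} (u x : Fin d → ℝ) :
    ∑ i, (-x) i * u i = - ∑ i, x i * u i := by
  rw [← Finset.sum_neg_distrib]
  refine Finset.sum_congr rfl (fun i _ => ?_)
  simp only [Pi.neg_apply]
  ring

private theorem lspKhin_cont {d : ℕ} (u : Fin d → ℝ) :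
    Continuous (fun x : Fin d → ℝ => ∑ i, x i * u i) := by fun_prop

private theorem lspKhin_meas {d : ℕ} {K : Set (Fin d → ℝ)} (hK : IsCompact K) (u : Fin d → ℝ)
    (t : ℝ) : MeasurableSet (lspKhin_S K u t) :=
  hK.isClosed.measurableSet.inter (measurableSet_le measurable_const (lspKhin_cont u).measurable)

private theorem lspKhin_half {d : ℕ} {K : Set (Fin d → ℝ)} (hK : IsCompact K) (hc : Convex ℝ K)
    (u : Fin d → ℝ) {x y : ℝ} (hx : 0 < x) (hy : 0 < y) :
    volume (lspKhin_S K u (x + y)) ^ (x / (x + y)) *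
      volume (lspKhin_S K u 0) ^ (1 - x / (x + y)) ≤ volume (lspKhin_S K u x) := by
  have hxy : 0 < x + y := add_pos hx hy
  have h0 : 0 < x / (x + y) := div_pos hx hxy
  have h1 : x / (x + y) < 1 := by
    rw [div_lt_one hxy]
    linarith
  refine bm h0 h1 _ _ _ (lspKhin_meas hK u _) (lspKhin_meas hK u _) (lspKhin_meas hK u _) ?_
  intro a ha b hb
  refine ⟨hc ha.1 hb.1 h0.le (by linarith) (by ring), ?_⟩
  have ha2 : x + y ≤ ∑ i, a i * u i := ha.2
  have hb2 : 0 ≤ ∑ i, b i * u i := hb.2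
  show x ≤ ∑ i, _ * u i
  rw [lspKhin_comb]
  have h2 : x = x / (x + y) * (x + y) := by field_simp
  have h3 : x / (x + y) * (x + y) ≤ x / (x + y) * ∑ i, a i * u i :=
    mul_le_mul_of_nonneg_left ha2 h0.le
  have h4 : 0 ≤ (1 - x / (x + y)) * ∑ i, b i * u i := mul_nonneg (by linarith) hb2
  linarith

private theorem lspKhin_sub {d : ℕ} {K : Set (Fin d → ℝ)} (hK : IsCompact K) (hc : Convex ℝ K)
    (u : Fin d → ℝ) {x y : ℝ} (hx : 0 < x) (hy : 0 < y) :
    volume (lspKhin_S K u 0) * volume (lspKhin_S K u (x + y)) ≤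
      volume (lspKhin_S K u x) * volume (lspKhin_S K u y) := by
  have hxy : 0 < x + y := add_pos hx hy
  have h0 : 0 < x / (x + y) := div_pos hx hxy
  have h1 : 0 < y / (x + y) := div_pos hy hxy
  have h2 : 1 - x / (x + y) = y / (x + y) := by field_simp; ring
  have h3 : 1 - y / (x + y) = x / (x + y) := by field_simp; ring
  have h4 : x / (x + y) + y / (x + y) = 1 := by field_simp
  have e1 := lspKhin_half hK hc u hx hy
  have e2 := lspKhin_half hK hc u hy hx
  rw [add_comm y x, h3] at e2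
  rw [h2] at e1
  refine le_trans (le_of_eq ?_) (mul_le_mul' e1 e2)
  have e3 : ∀ v : ENNReal, v = v ^ (x / (x + y)) * v ^ (y / (x + y)) := by
    intro v
    rw [← ENNReal.rpow_add_of_nonneg _ _ h0.le h1.le, h4, ENNReal.rpow_one]
  calc volume (lspKhin_S K u 0) * volume (lspKhin_S K u (x + y))
      = (volume (lspKhin_S K u 0) ^ (x / (x + y)) * volume (lspKhin_S K u 0) ^ (y / (x + y))) *
        (volume (lspKhin_S K u (x + y)) ^ (x / (x + y)) *
          volume (lspKhin_S K u (x + y)) ^ (y / (x + y))) := by rw [← e3, ← e3]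
    _ = _ := by ring

private theorem lspKhin_two {d : ℕ} {K : Set (Fin d → ℝ)} (hs : ∀ x ∈ K, -x ∈ K)
    (u : Fin d → ℝ) (t : ℝ) :
    volume (K ∩ {x | ∑ i, x i * u i ≤ -t}) = volume (lspKhin_S K u t) := by
  rw [← Measure.measure_neg]
  congr 1
  ext x
  simp only [Set.mem_neg, mem_inter_iff, Set.mem_ofPred_eq, lspKhin_S]
  rw [lspKhin_neg]
  constructor
  · rintro ⟨h1, h2⟩
    refine ⟨?_, by linarith⟩
    have := hs _ h1
    rwa [neg_neg] at this
  · rintro ⟨h1, h2⟩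
    exact ⟨hs _ h1, by linarith⟩

private theorem lspKhin_le {d : ℕ} {K : Set (Fin d → ℝ)} (hs : ∀ x ∈ K, -x ∈ K)
    (u : Fin d → ℝ) : volume K ≤ 2 * volume (lspKhin_S K u 0) := by
  have h1 : K ⊆ lspKhin_S K u 0 ∪ (K ∩ {x | ∑ i, x i * u i ≤ -0}) := by
    intro x hx
    rcases le_total 0 (∑ i, x i * u i) with h | h
    · exact Or.inl ⟨hx, h⟩
    · refine Or.inr ⟨hx, ?_⟩
      show _ ≤ -(0 : ℝ)
      rwa [neg_zero]
  refine (measure_mono h1).trans ((measure_union_le _ _).trans ?_)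
  rw [lspKhin_two hs, two_mul]

private theorem lspKhin_abs {d : ℕ} {K : Set (Fin d → ℝ)} (hK : IsCompact K)
    (hs : ∀ x ∈ K, -x ∈ K) (u : Fin d → ℝ) {t : ℝ} (ht : 0 < t) :
    (volume.restrict K) {x | t ≤ |∑ i, x i * u i|} = 2 * volume (lspKhin_S K u t) := by
  have hm := hK.isClosed.measurableSet
  have hms : MeasurableSet {x : Fin d → ℝ | t ≤ |∑ i, x i * u i|} :=
    measurableSet_le measurable_const (lspKhin_cont u).abs.measurable
  rw [Measure.restrict_apply hms]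
  have h1 : {x : Fin d → ℝ | t ≤ |∑ i, x i * u i|} ∩ K =
      lspKhin_S K u t ∪ (K ∩ {x | ∑ i, x i * u i ≤ -t}) := by
    ext x
    simp only [mem_inter_iff, Set.mem_ofPred_eq, mem_union, lspKhin_S]
    rw [le_abs]
    constructor
    · rintro ⟨h | h, hx⟩
      · exact Or.inl ⟨hx, h⟩
      · exact Or.inr ⟨hx, by linarith⟩
    · rintro (⟨hx, h⟩ | ⟨hx, h⟩)
      · exact ⟨Or.inl h, hx⟩
      · exact ⟨Or.inr (by linarith), hx⟩
  rw [h1, measure_union, lspKhin_two hs, two_mul]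
  · rw [Set.disjoint_left]
    rintro x ⟨_, h2⟩ ⟨_, h3⟩
    have h2' : t ≤ ∑ i, x i * u i := h2
    have h3' : ∑ i, x i * u i ≤ -t := h3
    linarith
  · exact hm.inter (measurableSet_le (lspKhin_cont u).measurable measurable_const)

private theorem lspKhin_anti {d : ℕ} (K : Set (Fin d → ℝ)) (u : Fin d → ℝ) :
    Antitone (fun t => volume (lspKhin_S K u t)) := by
  intro s t hst
  refine measure_mono (inter_subset_inter_right _ ?_)
  intro x hx
  exact le_trans hst hx

/-- `∫⁻_{t>0} m(t) t = ∫⁻∫⁻ m(x + y)` -/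
private theorem lspKhin_tri (m : ℝ → ENNReal) (hm : Measurable m) :
    ∫⁻ t in Ioi (0 : ℝ), m t * ENNReal.ofReal t =
      ∫⁻ x in Ioi (0 : ℝ), ∫⁻ y in Ioi (0 : ℝ), m (x + y) := by
  have e1 : ∀ x ∈ Ioi (0 : ℝ), ∫⁻ y in Ioi (0 : ℝ), m (x + y) =
      ∫⁻ t in Ioi (0 : ℝ), (if x < t then m t else 0) := by
    intro x hx
    have hx' : (0 : ℝ) < x := hx
    have h1 : ∀ t, (if x < t then m t else 0) = (Ioi x).indicator m t := by
      intro t
      simp only [indicator, mem_Ioi]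
    simp only [h1]
    rw [lintegral_indicator measurableSet_Ioi, Measure.restrict_restrict measurableSet_Ioi,
      inter_eq_left.2 (Ioi_subset_Ioi hx'.le)]
    rw [← lintegral_indicator measurableSet_Ioi, ← lintegral_indicator measurableSet_Ioi]
    rw [← lintegral_add_left_eq_self (fun t => (Ioi x).indicator m t) x]
    refine lintegral_congr (fun y => ?_)
    simp only [indicator, mem_Ioi]
    by_cases hy : 0 < y
    · rw [if_pos hy, if_pos (by linarith)]
    · rw [if_neg hy, if_neg (by linarith)]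
  rw [setLIntegral_congr_fun measurableSet_Ioi e1, lintegral_lintegral_swap]
  · refine setLIntegral_congr_fun measurableSet_Ioi (fun t ht => ?_)
    have h1 : ∀ x, (if x < t then m t else 0) = (Iio t).indicator (fun _ => m t) x := by
      intro x
      simp only [indicator, mem_Iio]
    simp only [h1]
    rw [lintegral_indicator measurableSet_Iio, setLIntegral_const,
      Measure.restrict_apply measurableSet_Iio, Iio_inter_Ioi, Real.volume_Ioo, sub_zero]
  · refine Measurable.aemeasurable ?_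
    refine Measurable.ite ?_ ?_ measurable_const
    · exact measurableSet_lt measurable_fst measurable_snd
    · exact hm.comp measurable_snd

private theorem lspKhin_L {d : ℕ} (K : Set (Fin d → ℝ)) (hK : IsCompact K) (hc : Convex ℝ K)
    (hs : ∀ x ∈ K, -x ∈ K) (u : Fin d → ℝ) :
    volume K * ∫⁻ x in K, ENNReal.ofReal ((∑ i, x i * u i) ^ 2) ≤
      2 * (∫⁻ x in K, ENNReal.ofReal |∑ i, x i * u i|) ^ 2 := by
  set m : ℝ → ENNReal := fun t => volume (lspKhin_S K u t) with hmdef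
  have hm : Measurable m := (lspKhin_anti K u).measurable
  have f1 : ∫⁻ x in K, ENNReal.ofReal |∑ i, x i * u i| = 2 * ∫⁻ t in Ioi (0 : ℝ), m t := by
    rw [lintegral_eq_lintegral_meas_le (μ := volume.restrict K) (f := fun x => |∑ i, x i * u i|)
      (Filter.Eventually.of_forall (fun x => abs_nonneg _)) (lspKhin_cont u).abs.aemeasurable]
    rw [← lintegral_const_mul _ hm]
    exact setLIntegral_congr_fun measurableSet_Ioi (fun t ht => lspKhin_abs hK hs u ht)
  have f2 : ∫⁻ x in K, ENNReal.ofReal ((∑ i, x i * u i) ^ 2) =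
      4 * ∫⁻ t in Ioi (0 : ℝ), m t * ENNReal.ofReal t := by
    have h1 := lintegral_comp_eq_lintegral_meas_le_mul (μ := volume.restrict K)
      (f := fun x => |∑ i, x i * u i|) (g := fun t => 2 * t)
      (Filter.Eventually.of_forall (fun x => abs_nonneg _)) (lspKhin_cont u).abs.aemeasurable
      (fun t _ => (by fun_prop : Continuous (fun t : ℝ => 2 * t)).intervalIntegrable _ _)
      (by
        refine (ae_restrict_mem measurableSet_Ioi).mono (fun t ht => ?_)
        have ht' : (0 : ℝ) < t := ht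
        show (0 : ℝ) ≤ 2 * t
        positivity)
    have h2 : ∀ x : Fin d → ℝ, ENNReal.ofReal ((∑ i, x i * u i) ^ 2) =
        ENNReal.ofReal (∫ t in (0)..(|∑ i, x i * u i|), 2 * t) := by
      intro x
      congr 1
      rw [intervalIntegral.integral_const_mul, integral_id, sq_abs]
      ring
    simp only [h2]
    rw [h1, ← lintegral_const_mul _ (by fun_prop)]
    refine setLIntegral_congr_fun measurableSet_Ioi (fun t ht => ?_)
    have ht' : (0 : ℝ) < t := ht
    rw [lspKhin_abs hK hs u ht', ENNReal.ofReal_mul (by norm_num)]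
    have h3 : ENNReal.ofReal 2 = 2 := by norm_num
    rw [h3]
    ring
  have f3 : m 0 * ∫⁻ x in Ioi (0 : ℝ), ∫⁻ y in Ioi (0 : ℝ), m (x + y) ≤
      (∫⁻ t in Ioi (0 : ℝ), m t) ^ 2 := by
    have hmm : Measurable (fun x => ∫⁻ y in Ioi (0 : ℝ), m (x + y)) :=
      Measurable.lintegral_prod_right' (f := fun p : ℝ × ℝ => m (p.1 + p.2))
        (hm.comp (measurable_fst.add measurable_snd))
    rw [← lintegral_const_mul _ hmm, sq, ← lintegral_mul_const _ hm]
    refine setLIntegral_mono' measurableSet_Ioi (fun x hx => ?_)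
    have hmx : Measurable (fun y => m (x + y)) := hm.comp (measurable_const.add measurable_id)
    rw [← lintegral_const_mul _ hmx, ← lintegral_const_mul _ hm]
    exact setLIntegral_mono' measurableSet_Ioi (fun y hy => lspKhin_sub hK hc u hx hy)
  rw [f1, f2, lspKhin_tri m hm]
  calc volume K * (4 * ∫⁻ x in Ioi (0 : ℝ), ∫⁻ y in Ioi (0 : ℝ), m (x + y))
      ≤ (2 * m 0) * (4 * ∫⁻ x in Ioi (0 : ℝ), ∫⁻ y in Ioi (0 : ℝ), m (x + y)) :=
        mul_le_mul' (lspKhin_le hs u) le_rfl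
    _ = 8 * (m 0 * ∫⁻ x in Ioi (0 : ℝ), ∫⁻ y in Ioi (0 : ℝ), m (x + y)) := by ring
    _ ≤ 8 * (∫⁻ t in Ioi (0 : ℝ), m t) ^ 2 := mul_le_mul' le_rfl f3
    _ = 2 * (2 * ∫⁻ t in Ioi (0 : ℝ), m t) ^ 2 := by ring

theorem khin {d : ℕ} (K : Set (Fin d → ℝ)) (hK : IsCompact K) (hc : Convex ℝ K)
    (hs : ∀ x ∈ K, -x ∈ K) (u : Fin d → ℝ) :
    (volume K).toReal * ∫ x in K, (∑ i, x i * u i) ^ 2 ≤
      2 * (∫ x in K, |∑ i, x i * u i|) ^ 2 := by
  have hc1 : Continuous (fun x : Fin d → ℝ => (∑ i, x i * u i) ^ 2) := (lspKhin_cont u).pow 2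
  have hc2 : Continuous (fun x : Fin d → ℝ => |∑ i, x i * u i|) := (lspKhin_cont u).abs
  have hi1 : IntegrableOn (fun x : Fin d → ℝ => (∑ i, x i * u i) ^ 2) K :=
    hc1.continuousOn.integrableOn_compact hK
  have hi2 : IntegrableOn (fun x : Fin d → ℝ => |∑ i, x i * u i|) K :=
    hc2.continuousOn.integrableOn_compact hK
  have e1 := ofReal_integral_eq_lintegral_ofReal hi1
    (Filter.Eventually.of_forall (fun x => sq_nonneg _))
  have e2 := ofReal_integral_eq_lintegral_ofReal hi2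
    (Filter.Eventually.of_forall (fun x => abs_nonneg _))
  have n1 : 0 ≤ ∫ x in K, (∑ i, x i * u i) ^ 2 := integral_nonneg (fun x => sq_nonneg _)
  have n2 : 0 ≤ ∫ x in K, |∑ i, x i * u i| := integral_nonneg (fun x => abs_nonneg _)
  have h := lspKhin_L K hK hc hs u
  rw [← e1, ← e2] at h
  have hv : volume K = ENNReal.ofReal (volume K).toReal :=
    (ENNReal.ofReal_toReal hK.measure_lt_top.ne).symm
  rw [hv, ← ENNReal.ofReal_mul ENNReal.toReal_nonneg, ← ENNReal.ofReal_pow n2] at h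
  have h2 : (2 : ENNReal) = ENNReal.ofReal 2 := by norm_num
  rw [h2, ← ENNReal.ofReal_mul (by norm_num)] at h
  exact (ENNReal.ofReal_le_ofReal_iff (by positivity)).1 h

end Pool.Agent.Lib.MP_29b1bb_gt.LP
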