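import Pool.Agent.Lib.MP_29b1bb_gt.LP.Mom

/-!
# LP-Num: Gaussian moments, numbers

* `gm_pos`: the integrand is positive off `0` and `gaussianReal 0 1` has no atoms.
* `gm_mono`: on a probability space `(∫ |x|^p)^{1/p} ≤ (∫ |x|^q)^{1/q}` for `0 < p ≤ q` (Jensen, or
  `eLpNorm_le_eLpNorm_of_exponent_le`).
* `gm_two`: the variance is `1`. `gm_five`: `gm 5 = 2/√(2π) ∫_0^∞ x^5 e^{-x²/2} dx = 16/√(2π)`
  (`integral_rpow_mul_exp_neg_mul_rpow`-like lemma with Gamma: `∫_0^∞ x^5 e^{-x²/2} = 4 Γ(3) = 8`);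
  `16/√(2π) ≤ (29/20)^5 = 6.4097…` (numerically `6.3831`).
* `gm_le_two`, `gm_le_five` follow. `num_root`: `(38/25)² = 2.3104 < 2π/e = 2.31145…`
  (`Real.pi_gt_d6`, `Real.exp_one_lt_d9`).
-/

set_option autoImplicit false

open MeasureTheory Set

namespace Pool.Agent.Lib.MP_29b1bb_gt.LP

/-- the moment as an integral over the half line -/
private lemma lspNum_gm_eq (p : ℝ) :
    gm p = (Real.sqrt (2 * Real.pi))⁻¹ *
      (2 * ∫ x in Ioi (0 : ℝ), x ^ p * Real.exp (-(1 / 2) * x ^ (2 : ℝ))) := by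
  unfold gm
  rw [ProbabilityTheory.integral_gaussianReal_eq_integral_smul (by norm_num)]
  have h1 : (fun x : ℝ => ProbabilityTheory.gaussianPDFReal 0 1 x • |x| ^ p) =
      fun x : ℝ => (Real.sqrt (2 * Real.pi))⁻¹ *
        ((fun y : ℝ => y ^ p * Real.exp (-(1 / 2) * y ^ (2 : ℝ))) |x|) := by
    funext x
    simp only [ProbabilityTheory.gaussianPDFReal_def, NNReal.coe_one, smul_eq_mul, mul_one,
      sub_zero]
    have h2 : |x| ^ (2 : ℝ) = x ^ 2 := by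
      rw [Real.rpow_two, sq_abs]
    rw [h2]
    have h3 : -x ^ 2 / 2 = -(1 / 2) * x ^ 2 := by ring
    rw [h3]
    ring
  rw [h1, integral_const_mul]
  congr 1
  exact integral_comp_abs (f := fun y : ℝ => y ^ p * Real.exp (-(1 / 2) * y ^ (2 : ℝ)))

private lemma lspNum_gm_gamma {p : ℝ} (hp : 0 < p) :
    gm p = (Real.sqrt (2 * Real.pi))⁻¹ *
      (2 * ((1 / 2 : ℝ) ^ (-(p + 1) / 2) * (1 / 2) * Real.Gamma ((p + 1) / 2))) := by
  rw [lspNum_gm_eq, integral_rpow_mul_exp_neg_mul_rpow (by norm_num) (by linarith) (by norm_num)]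

theorem gm_pos {p : ℝ} (hp : 0 < p) : 0 < gm p := by
  rw [lspNum_gm_gamma hp]
  have h1 : 0 < Real.Gamma ((p + 1) / 2) := Real.Gamma_pos_of_pos (by linarith)
  have h2 : 0 < Real.sqrt (2 * Real.pi) := Real.sqrt_pos.2 (by positivity)
  positivity

theorem gm_mono {p q : ℝ} (hp : 0 < p) (hpq : p ≤ q) : gm p ^ (1 / p) ≤ gm q ^ (1 / q) := by
  have hq : 0 < q := lt_of_lt_of_le hp hpq
  have key : ∀ r : ℝ, 0 < r →
      eLpNorm (id : ℝ → ℝ) (ENNReal.ofReal r) (ProbabilityTheory.gaussianReal 0 1) =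
        ENNReal.ofReal (gm r ^ (1 / r)) := by
    intro r hr
    have hm : MemLp (id : ℝ → ℝ) (ENNReal.ofReal r) (ProbabilityTheory.gaussianReal 0 1) :=
      ProbabilityTheory.memLp_id_gaussianReal' _ ENNReal.ofReal_ne_top
    rw [hm.eLpNorm_eq_integral_rpow_norm (by simpa using hr) ENNReal.ofReal_ne_top,
      ENNReal.toReal_ofReal hr.le, one_div]
    rfl
  have h1 := eLpNorm_le_eLpNorm_of_exponent_le (μ := ProbabilityTheory.gaussianReal 0 1)
    (f := (id : ℝ → ℝ)) (ENNReal.ofReal_le_ofReal hpq) aestronglyMeasurable_id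
  rw [key p hp, key q hq] at h1
  exact (ENNReal.ofReal_le_ofReal_iff (Real.rpow_nonneg (gm_pos hq).le _)).1 h1

theorem gm_two : gm 2 = 1 := by
  have h1 : ProbabilityTheory.variance (fun x : ℝ => x) (ProbabilityTheory.gaussianReal 0 1) =
      ((1 : NNReal) : ℝ) := ProbabilityTheory.variance_fun_id_gaussianReal
  rw [ProbabilityTheory.variance_eq_integral (by fun_prop),
    ProbabilityTheory.integral_id_gaussianReal] at h1
  unfold gm
  rw [NNReal.coe_one] at h1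
  rw [← h1]
  refine integral_congr_ae (Filter.Eventually.of_forall fun x => ?_)
  simp only [sub_zero]
  rw [Real.rpow_two, sq_abs]

theorem gm_five : gm 5 ≤ (29 / 20) ^ 5 := by
  rw [lspNum_gm_gamma (by norm_num)]
  have h1 : ((5 + 1) / 2 : ℝ) = ((2 : ℕ) : ℝ) + 1 := by norm_num
  have h2 : (-(5 + 1) / 2 : ℝ) = ((-3 : ℤ) : ℝ) := by norm_num
  rw [h1, h2, Real.Gamma_nat_eq_factorial, Real.rpow_intCast]
  have h3 : (5 / 2 : ℝ) ≤ Real.sqrt (2 * Real.pi) := by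
    rw [Real.le_sqrt (by norm_num) (by positivity)]
    have := Real.pi_gt_d2
    nlinarith
  have h4 : (Real.sqrt (2 * Real.pi))⁻¹ ≤ (5 / 2 : ℝ)⁻¹ :=
    inv_anti₀ (by norm_num) h3
  have h5 : (2 * ((1 / 2 : ℝ) ^ (-3 : ℤ) * (1 / 2) * ((Nat.factorial 2 : ℕ) : ℝ))) = 16 := by
    norm_num [Nat.factorial]
  rw [h5]
  have h6 : (Real.sqrt (2 * Real.pi))⁻¹ * 16 ≤ (5 / 2 : ℝ)⁻¹ * 16 := by gcongr
  refine h6.trans ?_
  norm_num

theorem gm_le_two {p : ℝ} (hp : 0 < p) (h : p ≤ 2) : gm p ^ (1 / p) ≤ 1 := by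
  have := gm_mono hp h
  rwa [gm_two, Real.one_rpow] at this

theorem gm_le_five {p : ℝ} (hp : 0 < p) (h : p ≤ 5) : gm p ^ (1 / p) ≤ 29 / 20 := by
  refine (gm_mono hp h).trans ?_
  calc gm 5 ^ (1 / 5 : ℝ) ≤ ((29 / 20 : ℝ) ^ 5) ^ (1 / 5 : ℝ) :=
        Real.rpow_le_rpow (gm_pos (by norm_num)).le gm_five (by norm_num)
    _ = 29 / 20 := by
        rw [← Real.rpow_natCast, ← Real.rpow_mul (by norm_num)]
        norm_num

theorem num_root : (38 / 25 : ℝ) < Real.sqrt (2 * Real.pi / Real.exp 1) := by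
  rw [Real.lt_sqrt (by norm_num), lt_div_iff₀ (Real.exp_pos 1)]
  have h1 := Real.pi_gt_d6
  have h2 := Real.exp_one_lt_d9
  nlinarith

theorem num_sqrt_two : Real.sqrt 2 * (26 / 25) < 38 / 25 := by
  have h1 : Real.sqrt 2 < 1.4143 := by
    rw [Real.sqrt_lt' (by norm_num)]
    norm_num
  linarith

end Pool.Agent.Lib.MP_29b1bb_gt.LP
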