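import Pool.Agent.Lib.MP_29b1bb_gt.LP.Vol
import Pool.Agent.Lib.MP_29b1bb_gt.LP.Gau
import Pool.Agent.Lib.MP_29b1bb_gt.LP.Fub
import Pool.Agent.Lib.MP_29b1bb_gt.LP.Gam

/-!
# LP-Opt: the determinant is bounded by the volume

If `det B = 0` the right side is nonnegative. Otherwise let `s = (d/(p · gm p · τ))^{1/p} > 0` and
`B' = s • B`, `det B' = s^d det B`, `B' g = s • (B g)`, `phi (s • y) = s^p phi y`. By `gau_phi`
`∫ phi (B' g) dγ = s^p gm p · sq ν p f B ≤ s^p gm p τ = d/p`. `gau_lower` and `vol_exp`: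
`√(2πe)^d s^d |det B| e^{-d/p} ≤ V Γ(1 + d/p) ≤ V e (d/p + 1) (d/(pe))^{d/p}` (`Gamma_le`), and
`s^d = (d/(p gm p τ))^{d/p}`; so `√(2πe)^d |det B| ≤ V e (d+1) (gm p τ)^{d/p}`.
(`gm p > 0`: hypothesis `hg`.)
-/

set_option autoImplicit false

open MeasureTheory Set

namespace Pool.Agent.Lib.MP_29b1bb_gt.LP

theorem det_le {Ω : Type*} [MeasurableSpace Ω] (ν : Measure Ω) [SigmaFinite ν] {p : ℝ} {d : ℕ}
    (hd : 0 < d) (f : Fin d → Ω → ℝ) (hp : 1 ≤ p)
    (hf : ∀ i, MemLp (f i) (ENNReal.ofReal p) ν) (hg : 0 < gm p)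
    (B : Matrix (Fin d) (Fin d) ℝ) (τ : ℝ) (hτ : 0 < τ) (hS : sq ν p f B ≤ τ)
    (hfin : volume {x | phi ν p f x ≤ 1} ≠ ⊤) :
    |B.det| ≤ (volume {x | phi ν p f x ≤ 1}).toReal * (Real.exp 1 * ((d : ℝ) + 1)) *
      ((gm p * τ) ^ (1 / p) / Real.sqrt (2 * Real.pi * Real.exp 1)) ^ d := by
  have hp0 : 0 < p := by linarith
  have hdr : (0 : ℝ) < d := by exact_mod_cast hd
  set V := (volume {x | phi ν p f x ≤ 1}).toReal with hV
  have hV0 : 0 ≤ V := ENNReal.toReal_nonneg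
  set R := Real.sqrt (2 * Real.pi * Real.exp 1) with hR
  have hR0 : 0 < R := Real.sqrt_pos.2 (by positivity)
  set a := (gm p * τ) ^ (1 / p) with ha
  have hgt : 0 < gm p * τ := mul_pos hg hτ
  have ha0 : 0 < a := Real.rpow_pos_of_pos hgt _
  by_cases hB : B.det = 0
  · rw [hB, abs_zero]
    positivity
  set b := ((d : ℝ) / p) ^ (1 / p) with hb
  have hdp : 0 < (d : ℝ) / p := by positivity
  have hb0 : 0 < b := Real.rpow_pos_of_pos hdp _
  obtain ⟨s, hs⟩ : ∃ s : ℝ, s = b / a := ⟨_, rfl⟩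
  have hs0 : 0 < s := by rw [hs]; positivity
  have hap : a ^ p = gm p * τ := by
    rw [ha, ← Real.rpow_mul hgt.le, one_div_mul_cancel hp0.ne', Real.rpow_one]
  have hbp : b ^ p = (d : ℝ) / p := by
    rw [hb, ← Real.rpow_mul hdp.le, one_div_mul_cancel hp0.ne', Real.rpow_one]
  have hsp : s ^ p * (gm p * τ) = (d : ℝ) / p := by
    rw [hs, Real.div_rpow hb0.le ha0.le, hap, hbp]
    field_simp
  have hdet : (s • B).det = s ^ d * B.det := by
    rw [Matrix.det_smul, Fintype.card_fin]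
  have hdet0 : (s • B).det ≠ 0 := by
    rw [hdet]
    exact mul_ne_zero (pow_ne_zero _ hs0.ne') hB
  obtain ⟨hi, he⟩ := gau_phi ν f hp hf B
  have hmv : ∀ g : Fin d → ℝ, phi ν p f ((s • B).mulVec g) = s ^ p * phi ν p f (B.mulVec g) := by
    intro g
    rw [← phi_smul s hs0]
    congr 1
    ext i
    simp [Matrix.mulVec, dotProduct, Finset.mul_sum, mul_assoc]
  have hi' : Integrable (fun g => phi ν p f ((s • B).mulVec g)) (gau d) := by
    simp only [hmv]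
    exact hi.const_mul _
  have he' : ∫ g, phi ν p f ((s • B).mulVec g) ∂gau d ≤ (d : ℝ) / p := by
    simp only [hmv]
    rw [integral_const_mul, he, ← hsp]
    have h1 : gm p * sq ν p f B ≤ gm p * τ := mul_le_mul_of_nonneg_left hS hg.le
    exact mul_le_mul_of_nonneg_left h1 (Real.rpow_nonneg hs0.le _)
  have hm : Measurable (phi ν p f) := (phi_continuous hp hf).measurable
  have k1 := gau_lower (s • B) hdet0 (phi ν p f) hm hi'
  have k2 := vol_exp hp0 (phi ν p f) hm phi_nonneg (fun t ht x => phi_smul t ht x)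
  have k3 := k1.trans k2
  have hG0 : 0 ≤ Real.Gamma (1 + (d : ℝ) / p) := (Real.Gamma_pos_of_pos (by positivity)).le
  rw [← ENNReal.ofReal_toReal hfin, ← hV, ← ENNReal.ofReal_mul hV0,
    ENNReal.ofReal_le_ofReal_iff (mul_nonneg hV0 hG0)] at k3
  have k4 := Gamma_le hdp
  have k5 : Real.exp (-((d : ℝ) / p)) ≤ Real.exp (-∫ g, phi ν p f ((s • B).mulVec g) ∂gau d) :=
    Real.exp_le_exp.2 (by linarith)
  have hbd : ((d : ℝ) / p / Real.exp 1) ^ ((d : ℝ) / p) * Real.exp ((d : ℝ) / p) = b ^ d := by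
    rw [Real.div_rpow hdp.le (Real.exp_pos _).le, ← Real.exp_mul, one_mul, div_mul_cancel₀ _
      (Real.exp_pos _).ne', hb, ← Real.rpow_natCast, ← Real.rpow_mul hdp.le]
    congr 1
    ring
  have hsd : s ^ d * a ^ d = b ^ d := by
    rw [← mul_pow, hs, div_mul_cancel₀ _ ha0.ne']
  rw [hdet, abs_mul, abs_of_pos (pow_pos hs0 d)] at k3
  have k6 : R ^ d * (s ^ d * |B.det|) * Real.exp (-((d : ℝ) / p)) ≤
      V * (Real.exp 1 * ((d : ℝ) / p + 1) * ((d : ℝ) / p / Real.exp 1) ^ ((d : ℝ) / p)) :=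
    (mul_le_mul_of_nonneg_left k5 (by positivity)).trans
      (k3.trans (mul_le_mul_of_nonneg_left k4 hV0))
  have k7 : R ^ d * (s ^ d * |B.det|) ≤ V * (Real.exp 1 * ((d : ℝ) / p + 1)) * b ^ d := by
    have h1 := mul_le_mul_of_nonneg_right k6 (Real.exp_pos ((d : ℝ) / p)).le
    have h2 : R ^ d * (s ^ d * |B.det|) * Real.exp (-((d : ℝ) / p)) * Real.exp ((d : ℝ) / p) =
        R ^ d * (s ^ d * |B.det|) := by
      rw [mul_assoc, ← Real.exp_add, neg_add_cancel, Real.exp_zero, mul_one]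
    rw [h2] at h1
    refine h1.trans (le_of_eq ?_)
    rw [← hbd]
    ring
  have k8 : (d : ℝ) / p + 1 ≤ (d : ℝ) + 1 := by
    have : (d : ℝ) / p ≤ d := div_le_self hdr.le hp
    linarith
  have k9 : R ^ d * (s ^ d * |B.det|) ≤ V * (Real.exp 1 * ((d : ℝ) + 1)) * (s ^ d * a ^ d) := by
    refine k7.trans ?_
    rw [hsd]
    gcongr
  have k10 : R ^ d * |B.det| ≤ V * (Real.exp 1 * ((d : ℝ) + 1)) * a ^ d := by
    have h1 : s ^ d * (R ^ d * |B.det|) ≤ s ^ d * (V * (Real.exp 1 * ((d : ℝ) + 1)) * a ^ d) := by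
      calc s ^ d * (R ^ d * |B.det|) = R ^ d * (s ^ d * |B.det|) := by ring
        _ ≤ _ := k9
        _ = _ := by ring
    exact le_of_mul_le_mul_left h1 (pow_pos hs0 d)
  rw [div_pow, ← mul_div_assoc, le_div_iff₀ (pow_pos hR0 d)]
  calc |B.det| * R ^ d = R ^ d * |B.det| := by ring
    _ ≤ _ := k10

end Pool.Agent.Lib.MP_29b1bb_gt.LP
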