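import Mathlib

/-!
# LP-Tr: from `EuclideanSpace ℝ (Fin d)` to `Fin d → ℝ`

`WithLp.toLp 2 : (Fin d → ℝ) → EuclideanSpace ℝ (Fin d)` preserves the volume
(`PiLp.volume_preserving_toLp`, older name `EuclideanSpace.volume_preserving_measurableEquiv`), is a
homeomorphism and linear. `MeasurePreserving.setIntegral_preimage_emb`, `measure_preimage_emb`.
-/

set_option autoImplicit false

open MeasureTheory Set

namespace Pool.Agent.Lib.MP_29b1bb_gt.LP

private theorem lspTr_emb (d : ℕ) :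
    MeasurableEmbedding (WithLp.toLp 2 : (Fin d → ℝ) → EuclideanSpace ℝ (Fin d)) :=
  (MeasurableEquiv.toLp 2 (Fin d → ℝ)).measurableEmbedding

theorem tr_meas {d : ℕ} (K : Set (EuclideanSpace ℝ (Fin d))) :
    volume {x : Fin d → ℝ | WithLp.toLp 2 x ∈ K} = volume K :=
  (PiLp.volume_preserving_toLp (Fin d)).measure_preimage_emb (lspTr_emb d) K

theorem tr_compact {d : ℕ} {K : Set (EuclideanSpace ℝ (Fin d))} (hK : IsCompact K) :
    IsCompact {x : Fin d → ℝ | WithLp.toLp 2 x ∈ K} := by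
  have h := (PiLp.homeomorph 2 (fun _ : Fin d => ℝ)).symm.isClosedEmbedding.isCompact_preimage hK
  exact h

theorem tr_convex {d : ℕ} {K : Set (EuclideanSpace ℝ (Fin d))} (hK : Convex ℝ K) :
    Convex ℝ {x : Fin d → ℝ | WithLp.toLp 2 x ∈ K} := by
  intro x hx y hy a b ha hb hab
  have h := hK hx hy ha hb hab
  have e : WithLp.toLp 2 (a • x + b • y) = a • WithLp.toLp 2 x + b • WithLp.toLp 2 y := rfl
  change WithLp.toLp 2 (a • x + b • y) ∈ K
  rw [e]
  exact h

theorem tr_int {d : ℕ} (K : Set (EuclideanSpace ℝ (Fin d))) (g : (Fin d → ℝ) → ℝ) :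
    ∫ x in K, g (fun i => x i) = ∫ x in {x : Fin d → ℝ | WithLp.toLp 2 x ∈ K}, g x := by
  have h := (PiLp.volume_preserving_toLp (Fin d)).setIntegral_preimage_emb (lspTr_emb d)
    (fun x : EuclideanSpace ℝ (Fin d) => g (fun i => x i)) K
  exact h.symm

end Pool.Agent.Lib.MP_29b1bb_gt.LP
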