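import Pool.Agent.Lib.MP_29b1bb_gt.SC.Main
import Pool.Agent.Lib.MP_29b1bb_gt.LP.Opt
import Pool.Agent.Lib.MP_29b1bb_gt.LP.Hol
import Pool.Agent.Lib.MP_29b1bb_gt.LP.Num
import Pool.Agent.Lib.MP_29b1bb_gt.LP.Khin
import Pool.Agent.Lib.MP_29b1bb_gt.LP.Cov
import Pool.Agent.Lib.MP_29b1bb_gt.LP.Asy
import Pool.Agent.Lib.MP_29b1bb_gt.LP.Tr

/-!
# LP-Main: bodies in unit balls of subspaces of `L_p`
-/

set_option autoImplicit false

open MeasureTheory Set

namespace Pool.Agent.Lib.MP_29b1bb_gt.LP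

/-- The constant `κ_p`. -/
noncomputable def kap (p : ℝ) : ℝ := if p < 2 then Real.sqrt 2 else 1

/-- The unit ball of the span of `f_1, …, f_d` in `L_p(ν)`. -/
def uball {Ω : Type*} [MeasurableSpace Ω] (ν : Measure Ω) (p : ℝ) {d : ℕ}
    (f : Fin d → Ω → ℝ) : Set (EuclideanSpace ℝ (Fin d)) :=
  {x | ∫ ω, |∑ i, x i * f i ω| ^ p ∂ν ≤ 1}

theorem uball_pre {Ω : Type*} [MeasurableSpace Ω] (ν : Measure Ω) (p : ℝ) {d : ℕ}
    (f : Fin d → Ω → ℝ) :
    {x : Fin d → ℝ | WithLp.toLp 2 x ∈ uball ν p f} = {x | phi ν p f x ≤ 1} := by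
  ext x
  simp [uball, phi]

theorem core {Ω : Type*} [MeasurableSpace Ω] (ν : Measure Ω) [SigmaFinite ν] {p : ℝ} {d : ℕ}
    (hd : 0 < d) (f : Fin d → Ω → ℝ) (hp : 1 ≤ p)
    (hf : ∀ i, MemLp (f i) (ENNReal.ofReal p) ν)
    (K : Set (EuclideanSpace ℝ (Fin d))) (hK : IsCompact K) (hi : (interior K).Nonempty)
    (hsub : K ⊆ uball ν p f) (hsym : p < 2 → Convex ℝ K ∧ ∀ x ∈ K, -x ∈ K)
    (hfin : volume (uball ν p f) ≠ ⊤) :
    (scCov d K).det ≤ ((volume (uball ν p f)).toReal * (Real.exp 1 * ((d : ℝ) + 1)) *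
      (kap p * gm p ^ (1 / p) / Real.sqrt (2 * Real.pi * Real.exp 1)) ^ d) ^ 2 := by
  classical
  set K' : Set (Fin d → ℝ) := {x | WithLp.toLp 2 x ∈ K} with hK'
  have hK'c : IsCompact K' := tr_compact hK
  have hvol : volume K' = volume K := tr_meas K
  have hK0 : volume K ≠ 0 := (Measure.measure_pos_of_nonempty_interior _ hi).ne'
  have hKt : volume K ≠ ⊤ := hK.measure_lt_top.ne
  have hV : (volume K).toReal ≠ 0 := (ENNReal.toReal_pos hK0 hKt).ne'
  have hVpos : 0 < (volume K).toReal := ENNReal.toReal_pos hK0 hKt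
  set μ : Measure (Fin d → ℝ) := (volume K')⁻¹ • (volume : Measure (Fin d → ℝ)).restrict K' with hμ
  haveI hprob : IsProbabilityMeasure μ := by
    refine ⟨?_⟩
    rw [hμ, Measure.smul_apply, Measure.restrict_apply_univ, smul_eq_mul, hvol]
    exact ENNReal.inv_mul_cancel hK0 hKt
  have hK'm : MeasurableSet K' := hK'c.isClosed.measurableSet
  -- integrals
  have hint : ∀ g : (Fin d → ℝ) → ℝ, ∫ x, g x ∂μ = (volume K).toReal⁻¹ * ∫ x in K', g x := by
    intro g
    rw [hμ, integral_smul_measure, hvol, ENNReal.toReal_inv, smul_eq_mul]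
  have havg : ∀ g : (Fin d → ℝ) → ℝ, (⨍ x in K, g (fun i => x i)) = ∫ x, g x ∂μ := by
    intro g
    rw [setAverage_eq, hint g, tr_int K g, smul_eq_mul]
    rfl
  -- almost every point is in the body
  have hae : ∀ᵐ x ∂μ, x ∈ K' := by
    rw [hμ]
    exact Measure.ae_smul_measure (ae_restrict_mem hK'm) _
  have hbd : ∃ R : ℝ, ∀ᵐ x ∂μ, ∀ i, |x i| ≤ R := by
    obtain ⟨R, hR⟩ := hK'c.isBounded.exists_norm_le
    refine ⟨R, ?_⟩
    filter_upwards [hae] with x hx i
    exact (norm_le_pi_norm x i).trans (hR x hx)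
  have hΦ : ∀ᵐ x ∂μ, phi ν p f x ≤ 1 := by
    filter_upwards [hae] with x hx
    have h1 : WithLp.toLp 2 x ∈ uball ν p f := hsub hx
    have h2 : x ∈ {x : Fin d → ℝ | WithLp.toLp 2 x ∈ uball ν p f} := h1
    rw [uball_pre] at h2
    exact h2
  -- matrices
  set A : Matrix (Fin d) (Fin d) ℝ := Matrix.of fun i j => ∫ x, x i * x j ∂μ with hA
  set m : Fin d → ℝ := fun i => ∫ x, x i ∂μ with hm
  set C : Matrix (Fin d) (Fin d) ℝ :=
    Matrix.of fun i j => (∫ x, x i * x j ∂μ) - (∫ x, x i ∂μ) * ∫ x, x j ∂μ with hC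
  have hcov : scCov d K = C := by
    ext i j
    simp only [scCov, hC, Matrix.of_apply]
    rw [havg (fun x => x i * x j), havg (fun x => x i), havg (fun x => x j)]
  have hCA : (Matrix.of fun i j => C i j + m i * m j) = A := by
    ext i j
    simp only [hC, hA, hm, Matrix.of_apply]
    ring
  have h1 : (scCov d K).det ≤ A.det := by
    rw [hcov, ← hCA]
    exact cov_le C (cov_posSemidef μ hbd) m
  obtain ⟨B, hB, hdet⟩ := exists_root A (second_posSemidef μ hbd)
  have hB' : ∀ i j, ∫ x, x i * x j ∂μ = ∑ k, B i k * B j k := fun i j => hB i j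
  have hg : 0 < gm p := gm_pos (by linarith)
  -- the constant
  have hkp : 0 ≤ kap p := by
    unfold kap
    split_ifs
    · exact Real.sqrt_nonneg 2
    · exact zero_le_one
  obtain ⟨τ, hτ, hS, hτp⟩ : ∃ τ : ℝ, 0 < τ ∧ sq ν p f B ≤ τ ∧
      (gm p * τ) ^ (1 / p) = kap p * gm p ^ (1 / p) := by
    by_cases hp2 : p < 2
    · obtain ⟨hcv, hsy⟩ := hsym hp2
      refine ⟨2 ^ (p / 2), by positivity, ?_, ?_⟩
      · refine hol_lt ν f μ hp hp2.le hf hbd hΦ B hB' ?_
        intro u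
        have hk := khin K' hK'c (tr_convex hcv) (by
          intro x hx
          have : WithLp.toLp 2 (-x) = -(WithLp.toLp 2 x) := rfl
          show WithLp.toLp 2 (-x) ∈ K
          rw [this]
          exact hsy _ hx) u
        rw [hvol] at hk
        rw [hint, hint]
        set a := ∫ x in K', (∑ i, x i * u i) ^ 2 with ha
        set b := ∫ x in K', |∑ i, x i * u i| with hb
        have h3 : (volume K).toReal⁻¹ * a ≤ 2 * ((volume K).toReal⁻¹ * b) ^ 2 := by
          rw [mul_pow]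
          have h4 : (volume K).toReal⁻¹ * a =
              ((volume K).toReal⁻¹) ^ 2 * ((volume K).toReal * a) := by
            field_simp
          rw [h4]
          calc ((volume K).toReal⁻¹) ^ 2 * ((volume K).toReal * a)
              ≤ ((volume K).toReal⁻¹) ^ 2 * (2 * b ^ 2) :=
                mul_le_mul_of_nonneg_left hk (by positivity)
            _ = 2 * (((volume K).toReal⁻¹) ^ 2 * b ^ 2) := by ring
        exact h3
      · rw [Real.mul_rpow hg.le (by positivity), ← Real.rpow_mul (by norm_num)]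
        have h5 : p / 2 * (1 / p) = 1 / 2 := by
          have : p ≠ 0 := by linarith
          field_simp
        rw [h5, kap, if_pos hp2, Real.sqrt_eq_rpow, mul_comm]
    · refine ⟨1, one_pos, hol_ge ν f μ (not_lt.mp hp2) hf hbd hΦ B hB', ?_⟩
      rw [mul_one, kap, if_neg hp2, one_mul]
  have hfin' : volume {x | phi ν p f x ≤ 1} ≠ ⊤ := by
    rw [← uball_pre, tr_meas]
    exact hfin
  have h2 := det_le ν hd f hp hf hg B τ hτ hS hfin'
  rw [← uball_pre, tr_meas, hτp] at h2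
  refine h1.trans ?_
  rw [hdet, ← sq_abs]
  exact pow_le_pow_left₀ (abs_nonneg _) h2 2

/-- The determinant of the covariance matrix for large `d`. -/
theorem final_bound (q : ℝ) (_h0 : 0 ≤ q) {ε : ℝ} (_hε : 0 < ε) (hε1 : ε < 1) {d : ℕ}
    (h₁ : Real.exp 1 * ((d : ℝ) + 1) * (q / Real.sqrt (2 * Real.pi * Real.exp 1)) ^ d ≤
        ((1 - ε) / Real.exp 1) ^ d) (hd1 : 0 < d)
    {Ω : Type*} [MeasurableSpace Ω] (ν : Measure Ω) [SigmaFinite ν] (p c : ℝ)
    (f : Fin d → Ω → ℝ) (K : Set (EuclideanSpace ℝ (Fin d)))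
    (hp : 1 ≤ p) (hf : ∀ i, MemLp (f i) (ENNReal.ofReal p) ν)
    (hK : IsCompact K) (hi : (interior K).Nonempty) (hsub : K ⊆ uball ν p f)
    (hsym : p < 2 → Convex ℝ K ∧ ∀ x ∈ K, -x ∈ K)
    (hc : 0 ≤ c) (hvolL : volume (uball ν p f) ≤ ENNReal.ofReal (c ^ d) * volume K)
    (hcq : c * kap p * gm p ^ (1 / p) ≤ q) :
    (scCov d K).det ≤ ((1 - ε) / Real.exp 1) ^ (2 * d) * (volume K).toReal ^ 2 := by
  have hKt : volume K ≠ ⊤ := hK.measure_lt_top.ne
  have hfin : volume (uball ν p f) ≠ ⊤ :=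
    ne_top_of_le_ne_top (ENNReal.mul_ne_top ENNReal.ofReal_ne_top hKt) hvolL
  have hg : 0 < gm p := gm_pos (by linarith)
  have hkp : 0 ≤ kap p := by
    unfold kap
    split_ifs
    · exact Real.sqrt_nonneg 2
    · exact zero_le_one
  refine (core ν hd1 f hp hf K hK hi hsub hsym hfin).trans ?_
  have hVle : (volume (uball ν p f)).toReal ≤ c ^ d * (volume K).toReal := by
    have := ENNReal.toReal_mono (ENNReal.mul_ne_top ENNReal.ofReal_ne_top hKt) hvolL
    rwa [ENNReal.toReal_mul, ENNReal.toReal_ofReal (pow_nonneg hc d)] at this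
  set s := Real.sqrt (2 * Real.pi * Real.exp 1) with hs
  have hs0 : 0 < s := Real.sqrt_pos.mpr (by positivity)
  set κ := kap p * gm p ^ (1 / p) with hκ
  have hκ0 : 0 ≤ κ := mul_nonneg hkp (Real.rpow_nonneg hg.le _)
  have hmain : (volume (uball ν p f)).toReal * (Real.exp 1 * ((d : ℝ) + 1)) * (κ / s) ^ d ≤
      ((1 - ε) / Real.exp 1) ^ d * (volume K).toReal := by
    calc (volume (uball ν p f)).toReal * (Real.exp 1 * ((d : ℝ) + 1)) * (κ / s) ^ d
        ≤ (c ^ d * (volume K).toReal) * (Real.exp 1 * ((d : ℝ) + 1)) * (κ / s) ^ d := by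
          gcongr
      _ = (Real.exp 1 * ((d : ℝ) + 1) * ((c * κ) / s) ^ d) * (volume K).toReal := by
          rw [div_pow, div_pow, mul_pow]
          ring
      _ ≤ (Real.exp 1 * ((d : ℝ) + 1) * (q / s) ^ d) * (volume K).toReal := by
          have h5 : c * κ ≤ q := by rw [hκ, ← mul_assoc]; exact hcq
          have h6 : 0 ≤ c * κ := mul_nonneg hc hκ0
          gcongr
      _ ≤ ((1 - ε) / Real.exp 1) ^ d * (volume K).toReal := by
          gcongr
  have hnn : 0 ≤ (volume (uball ν p f)).toReal * (Real.exp 1 * ((d : ℝ) + 1)) * (κ / s) ^ d := by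
    positivity
  calc ((volume (uball ν p f)).toReal * (Real.exp 1 * ((d : ℝ) + 1)) * (κ / s) ^ d) ^ 2
      ≤ (((1 - ε) / Real.exp 1) ^ d * (volume K).toReal) ^ 2 := pow_le_pow_left₀ hnn hmain 2
    _ = ((1 - ε) / Real.exp 1) ^ (2 * d) * (volume K).toReal ^ 2 := by
        rw [mul_pow, ← pow_mul, mul_comm d 2]

end Pool.Agent.Lib.MP_29b1bb_gt.LP
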