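import Mathlib

/-!
# LP-PLa: the Brunn-Minkowski inequality on the line

`λ|A| + (1-λ)|B| ≤ |C|` if `λA + (1-λ)B ⊆ C`, `A`, `B` nonempty measurable.
Proof. For compact nonempty `A₁ ⊆ A`, `B₁ ⊆ B` let `a = max A₁`, `b = min B₁`. The compact sets
`λA₁ + (1-λ)b` and `λa + (1-λ)B₁` are in `C`; the first is in `(-∞, λa + (1-λ)b]`, the second in
`[λa + (1-λ)b, ∞)`, so their intersection is null and `|C| ≥ λ|A₁| + (1-λ)|B₁|`
(`measure_union` up to a null set; scaling `Real.volume_preimage_mul_left`/`Measure.addHaar_smul`).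
Take suprema: `MeasurableSet.measure_eq_iSup_isCompact` / `exists_lt_isCompact`; if `|A| = 0` use a
point of `A`, in general replace `A₁` by `A₁ ∪ {a₀}`, `a₀ ∈ A` fixed.
-/

set_option autoImplicit false

open MeasureTheory Set Pointwise

namespace Pool.Agent.Lib.MP_29b1bb_gt.LP

private theorem lspPLa_scale {lam : ℝ} (h0 : 0 < lam) (A : Set ℝ) (c : ℝ) :
    volume ((fun x : ℝ => lam * x + c) '' A) = ENNReal.ofReal lam * volume A := by
  have h1 : (fun x : ℝ => lam * x + c) '' A = (fun x => x + c) '' ((fun x => lam * x) '' A) := by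
    rw [← image_comp]
    rfl
  have h2 : volume ((fun x : ℝ => x + c) '' ((fun x => lam * x) '' A)) =
      volume ((fun x : ℝ => lam * x) '' A) := by
    rw [image_add_right, measure_preimage_add_right]
  have h3 : (fun x : ℝ => lam * x) '' A = lam • A := rfl
  rw [h1, h2, h3, Measure.addHaar_smul, Module.finrank_self, pow_one, abs_of_pos h0]

private theorem lspPLa_compact {lam : ℝ} (h0 : 0 < lam) (h1 : lam < 1) (A B C : Set ℝ)
    (hA : IsCompact A) (hB : IsCompact B) (hA0 : A.Nonempty) (hB0 : B.Nonempty)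
    (hC : ∀ x ∈ A, ∀ y ∈ B, lam * x + (1 - lam) * y ∈ C) :
    ENNReal.ofReal lam * volume A + ENNReal.ofReal (1 - lam) * volume B ≤ volume C := by
  obtain ⟨a, ha, hamax⟩ := hA.exists_isGreatest hA0
  obtain ⟨b, hb, hbmin⟩ := hB.exists_isLeast hB0
  have h1' : 0 < 1 - lam := by linarith
  set P : Set ℝ := (fun x : ℝ => lam * x + (1 - lam) * b) '' A with hP
  set Q : Set ℝ := (fun y : ℝ => (1 - lam) * y + lam * a) '' B with hQ
  have hPC : P ⊆ C := by
    rintro _ ⟨x, hx, rfl⟩
    exact hC x hx b hb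
  have hQC : Q ⊆ C := by
    rintro _ ⟨y, hy, rfl⟩
    have := hC a ha y hy
    rwa [add_comm] at this
  have hQm : MeasurableSet Q := (hB.image (by fun_prop)).measurableSet
  have hPQ : volume (P ∩ Q) = 0 := by
    have hsub : P ∩ Q ⊆ {lam * a + (1 - lam) * b} := by
      rintro z ⟨⟨x, hx, rfl⟩, ⟨y, hy, hxy⟩⟩
      have h2 : x ≤ a := hamax hx
      have h3 : b ≤ y := hbmin hy
      have h4 : lam * x ≤ lam * a := mul_le_mul_of_nonneg_left h2 h0.le
      have h5 : (1 - lam) * b ≤ (1 - lam) * y := mul_le_mul_of_nonneg_left h3 h1'.le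
      simp only at hxy
      rw [mem_singleton_iff]
      show lam * x + (1 - lam) * b = lam * a + (1 - lam) * b
      linarith
    exact measure_mono_null hsub (measure_singleton _)
  have h2 : volume (P ∪ Q) = volume P + volume Q := by
    have := measure_union_add_inter P hQm (μ := volume)
    rw [hPQ, add_zero] at this
    exact this
  rw [← lspPLa_scale h0 A ((1 - lam) * b), ← lspPLa_scale h1' B (lam * a), ← h2]
  exact measure_mono (union_subset hPC hQC)

theorem bm_one {lam : ℝ} (h0 : 0 < lam) (h1 : lam < 1) (A B C : Set ℝ) (hA : MeasurableSet A)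
    (hB : MeasurableSet B) (hA0 : A.Nonempty) (hB0 : B.Nonempty)
    (hC : ∀ x ∈ A, ∀ y ∈ B, lam * x + (1 - lam) * y ∈ C) :
    ENNReal.ofReal lam * volume A + ENNReal.ofReal (1 - lam) * volume B ≤ volume C := by
  obtain ⟨a₀, ha₀⟩ := hA0
  obtain ⟨b₀, hb₀⟩ := hB0
  -- compact `A₁`, compact `B₁`
  have step1 : ∀ A₁ ⊆ A, IsCompact A₁ → ∀ B₁ ⊆ B, IsCompact B₁ →
      ENNReal.ofReal lam * volume A₁ + ENNReal.ofReal (1 - lam) * volume B₁ ≤ volume C := by
    intro A₁ hA₁ hc₁ B₁ hB₁ hd₁
    have h2 : ENNReal.ofReal lam * volume A₁ + ENNReal.ofReal (1 - lam) * volume B₁ ≤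
        ENNReal.ofReal lam * volume (insert a₀ A₁) +
          ENNReal.ofReal (1 - lam) * volume (insert b₀ B₁) := by
      gcongr
      · exact subset_insert _ _
      · exact subset_insert _ _
    refine h2.trans (lspPLa_compact h0 h1 _ _ C (hc₁.insert a₀) (hd₁.insert b₀)
      (insert_nonempty _ _) (insert_nonempty _ _) ?_)
    intro x hx y hy
    refine hC x ?_ y ?_
    · rcases hx with rfl | hx
      · exact ha₀
      · exact hA₁ hx
    · rcases hy with rfl | hy
      · exact hb₀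
      · exact hB₁ hy
  have supl : ∀ (x c κ : ENNReal), x ≠ ⊤ → κ ≠ ⊤ → ∀ (S : Set ℝ), MeasurableSet S →
      (∀ S₁ ⊆ S, IsCompact S₁ → x + κ * volume S₁ ≤ c) → x + κ * volume S ≤ c := by
    intro x c κ hx _ S hS h
    have h3 : κ * volume S ≤ c - x := by
      rw [hS.measure_eq_iSup_isCompact volume, ENNReal.mul_iSup]
      refine iSup_le fun S₁ => ?_
      rw [ENNReal.mul_iSup]
      refine iSup_le fun h4 => ?_
      rw [ENNReal.mul_iSup]
      refine iSup_le fun h5 => ?_
      exact ENNReal.le_sub_of_add_le_left hx (h S₁ h4 h5)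
    have h6 : x ≤ c := by
      have := h ∅ (empty_subset _) isCompact_empty
      rwa [measure_empty, mul_zero, add_zero] at this
    calc x + κ * volume S ≤ x + (c - x) := by gcongr
      _ = c := add_tsub_cancel_of_le h6
  have step2 : ∀ A₁ ⊆ A, IsCompact A₁ →
      ENNReal.ofReal lam * volume A₁ + ENNReal.ofReal (1 - lam) * volume B ≤ volume C := by
    intro A₁ hA₁ hc₁
    exact supl _ _ _ (ENNReal.mul_ne_top ENNReal.ofReal_ne_top hc₁.measure_lt_top.ne)
      ENNReal.ofReal_ne_top B hB fun B₁ hB₁ hd₁ => step1 A₁ hA₁ hc₁ B₁ hB₁ hd₁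
  by_cases hy : ENNReal.ofReal (1 - lam) * volume B = ⊤
  · have h3 := step2 ∅ (empty_subset _) isCompact_empty
    rw [hy, add_top, top_le_iff] at h3
    rw [h3]
    exact le_top
  · rw [add_comm]
    refine supl _ _ _ hy ENNReal.ofReal_ne_top A hA fun A₁ hA₁ hc₁ => ?_
    rw [add_comm]
    exact step2 A₁ hA₁ hc₁

end Pool.Agent.Lib.MP_29b1bb_gt.LP
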