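import Pool.Agent.Lib.MP_29b1bb_gt.LP.PLa

/-!
# LP-PLb: the Prékopa-Leindler inequality on the line

Proof. Bounded case `pl_bdd`: `f ≤ 1`, `g ≤ 1` and `f`, `g` have supremum `1` (for each `t < 1` there
are `x` with `t < f x`, `y` with `t < g y`). For `0 < t < 1`: `λ{f > t} + (1-λ){g > t} ⊆ {h > t}` since
`f(x)^λ g(y)^{1-λ} > t^λ t^{1-λ} = t`; `bm_one` gives `λ|{f>t}| + (1-λ)|{g>t}| ≤ |{h>t}|`. Layer cake
(`lintegral_eq_lintegral_meas_lt` for real functions, or the ENNReal-valued form: for `f ≤ 1`,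
`∫⁻ f = ∫⁻_{t ∈ (0,1)} |{f > t}|`, for `h`: `≥`): `λ∫f + (1-λ)∫g ≤ ∫h`, and AM-GM
(`ENNReal.inner_le_…`/`ENNReal.geom_mean_le_arith_mean2_weighted`) `(∫f)^λ (∫g)^{1-λ} ≤ ∫h`.
General case: truncate `f_N = min f N`, `g_N = min g N` (monotone convergence,
`lintegral_iSup`, continuity of `x ↦ x^λ`), for bounded `f`, `g` not identically `0` divide by the suprema
`M = ⨆ f`, `M' = ⨆ g` and `h` by `M^λ M'^{1-λ}`; if `f = 0` or `g = 0` then the left side is `0`.
-/

set_option autoImplicit false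

open MeasureTheory Set

namespace Pool.Agent.Lib.MP_29b1bb_gt.LP

private theorem lspPLb_amgm {l : ℝ} (h0 : 0 < l) (h1 : l < 1) (x y : ENNReal) :
    x ^ l * y ^ (1 - l) ≤ ENNReal.ofReal l * x + ENNReal.ofReal (1 - l) * y := by
  have h1' : 0 < 1 - l := sub_pos.2 h1
  have hpq : (l⁻¹).HolderConjugate ((1 - l)⁻¹) := by
    rw [Real.holderConjugate_iff]
    refine ⟨(one_lt_inv₀ h0).2 h1, ?_⟩
    rw [inv_inv, inv_inv]; ring
  have h := ENNReal.young_inequality (x ^ l) (y ^ (1 - l)) hpq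
  rw [← ENNReal.rpow_mul, ← ENNReal.rpow_mul, mul_inv_cancel₀ h1'.ne', mul_inv_cancel₀ h0.ne',
    ENNReal.rpow_one, ENNReal.rpow_one, ENNReal.ofReal_inv_of_pos h1', ENNReal.ofReal_inv_of_pos h0,
    div_eq_mul_inv, div_eq_mul_inv, inv_inv, inv_inv, mul_comm x, mul_comm y] at h
  exact h

private theorem lspPLb_layer (c : ℝ → ENNReal) (hc : Measurable c) (hle : ∀ t, c t ≤ 1) :
    ∫⁻ t, c t = ∫⁻ u in Ioi (0 : ℝ), volume {t : ℝ | ENNReal.ofReal u < c t} := by
  have hfin : ∀ t, c t ≠ ⊤ := fun t => ne_top_of_le_ne_top ENNReal.one_ne_top (hle t)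
  have h := lintegral_eq_lintegral_meas_lt (volume : Measure ℝ)
    (f := fun t => (c t).toReal) (Filter.Eventually.of_forall fun t => ENNReal.toReal_nonneg)
    hc.ennreal_toReal.aemeasurable
  have e1 : ∫⁻ t, c t = ∫⁻ t, ENNReal.ofReal (c t).toReal := by
    refine lintegral_congr fun t => ?_
    exact (ENNReal.ofReal_toReal (hfin t)).symm
  rw [e1, h]
  refine setLIntegral_congr_fun measurableSet_Ioi ?_
  intro u hu
  have hset : {t : ℝ | ENNReal.ofReal u < c t} = {t | u < (c t).toReal} := by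
    ext t
    exact ENNReal.ofReal_lt_iff_lt_toReal (le_of_lt hu) (hfin t)
  show volume {t | u < (c t).toReal} = volume {t : ℝ | ENNReal.ofReal u < c t}
  rw [hset]

private theorem lspPLb_norm {lam : ℝ} (h0 : 0 < lam) (h1 : lam < 1) (a b c : ℝ → ENNReal)
    (ha : Measurable a) (hb : Measurable b) (hc : Measurable c)
    (ha0 : ⨆ x, a x = 1) (hb0 : ⨆ x, b x = 1) (hc1 : ∀ t, c t ≤ 1)
    (habc : ∀ s t : ℝ, a s ^ lam * b t ^ (1 - lam) ≤ c (lam * s + (1 - lam) * t)) :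
    ENNReal.ofReal lam * (∫⁻ t, a t) + ENNReal.ofReal (1 - lam) * (∫⁻ t, b t) ≤ ∫⁻ t, c t := by
  have hle_a : ∀ t, a t ≤ 1 := fun t => ha0 ▸ le_iSup a t
  have hle_b : ∀ t, b t ≤ 1 := fun t => hb0 ▸ le_iSup b t
  rw [lspPLb_layer a ha hle_a, lspPLb_layer b hb hle_b, lspPLb_layer c hc hc1]
  have hmA : Measurable (fun u : ℝ => volume {t : ℝ | ENNReal.ofReal u < a t}) := by
    refine Antitone.measurable ?_
    intro u v huv
    exact measure_mono fun t h2 => lt_of_le_of_lt (ENNReal.ofReal_le_ofReal huv) h2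
  have hmB : Measurable (fun u : ℝ => volume {t : ℝ | ENNReal.ofReal u < b t}) := by
    refine Antitone.measurable ?_
    intro u v huv
    exact measure_mono fun t h2 => lt_of_le_of_lt (ENNReal.ofReal_le_ofReal huv) h2
  rw [← lintegral_const_mul _ hmA, ← lintegral_const_mul _ hmB,
    ← lintegral_add_left (hmA.const_mul _)]
  refine setLIntegral_mono' measurableSet_Ioi ?_
  intro u hu
  have hu0 : 0 < u := hu
  rcases lt_or_ge u 1 with hu1 | hu1
  · refine bm_one h0 h1 _ _ _ (ha measurableSet_Ioi) (hb measurableSet_Ioi) ?_ ?_ ?_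
    · have h2 : ENNReal.ofReal u < ⨆ x, a x := by
        rw [ha0]
        exact ENNReal.ofReal_lt_one.2 hu1
      obtain ⟨x, hx⟩ := lt_iSup_iff.1 h2
      exact ⟨x, hx⟩
    · have h2 : ENNReal.ofReal u < ⨆ x, b x := by
        rw [hb0]
        exact ENNReal.ofReal_lt_one.2 hu1
      obtain ⟨x, hx⟩ := lt_iSup_iff.1 h2
      exact ⟨x, hx⟩
    · intro s h2 t h3
      refine lt_of_lt_of_le ?_ (habc s t)
      have hu' : ENNReal.ofReal u ≠ 0 := by simpa using hu0
      have hut : ENNReal.ofReal u ≠ ⊤ := ENNReal.ofReal_ne_top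
      have e : ENNReal.ofReal u = ENNReal.ofReal u ^ lam * ENNReal.ofReal u ^ (1 - lam) := by
        rw [← ENNReal.rpow_add _ _ hu' hut]
        simp
      rw [e]
      exact ENNReal.mul_lt_mul (ENNReal.rpow_lt_rpow h2 h0)
        (ENNReal.rpow_lt_rpow h3 (sub_pos.2 h1))
  · have hA : {t : ℝ | ENNReal.ofReal u < a t} = ∅ := by
      ext t
      simp only [mem_ofPred_eq, mem_empty_iff_false, iff_false, not_lt]
      exact (hle_a t).trans (by simpa using hu1)
    have hB : {t : ℝ | ENNReal.ofReal u < b t} = ∅ := by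
      ext t
      simp only [mem_ofPred_eq, mem_empty_iff_false, iff_false, not_lt]
      exact (hle_b t).trans (by simpa using hu1)
    rw [hA, hB]
    simp

private theorem lspPLb_bdd {lam : ℝ} (h0 : 0 < lam) (h1 : lam < 1) (a b c : ℝ → ENNReal)
    (ha : Measurable a) (hb : Measurable b) (hc : Measurable c)
    (ha0 : ⨆ x, a x ≠ ⊤) (hb0 : ⨆ x, b x ≠ ⊤)
    (habc : ∀ s t : ℝ, a s ^ lam * b t ^ (1 - lam) ≤ c (lam * s + (1 - lam) * t)) :
    (∫⁻ x, a x) ^ lam * (∫⁻ x, b x) ^ (1 - lam) ≤ ∫⁻ x, c x := by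
  have hl1 : 0 < 1 - lam := sub_pos.2 h1
  have hint0 : ∀ f : ℝ → ENNReal, ⨆ x, f x = 0 → ∫⁻ t, f t = 0 := by
    intro f hf
    have : ∀ t, f t = 0 := fun t => le_antisymm (hf ▸ le_iSup f t) bot_le
    rw [lintegral_congr this, lintegral_zero]
  by_cases hA : ⨆ x, a x = 0
  · rw [hint0 a hA, ENNReal.zero_rpow_of_pos h0, zero_mul]
    exact bot_le
  by_cases hB : ⨆ x, b x = 0
  · rw [hint0 b hB, ENNReal.zero_rpow_of_pos hl1, mul_zero]
    exact bot_le
  obtain ⟨A, hAdef⟩ : ∃ A : ENNReal, A = ⨆ x, a x := ⟨_, rfl⟩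
  obtain ⟨B, hBdef⟩ : ∃ B : ENNReal, B = ⨆ x, b x := ⟨_, rfl⟩
  have hleA : ∀ x, a x ≤ A := fun x => hAdef ▸ le_iSup a x
  have hleB : ∀ x, b x ≤ B := fun x => hBdef ▸ le_iSup b x
  rw [← hAdef] at hA ha0
  rw [← hBdef] at hB hb0
  obtain ⟨M, hM⟩ : ∃ M : ENNReal, M = A ^ lam * B ^ (1 - lam) := ⟨_, rfl⟩
  have hA1 : A ^ lam ≠ 0 := by
    rw [Ne, ENNReal.rpow_eq_zero_iff]
    push Not
    exact ⟨fun h => absurd h hA, fun h => absurd h ha0⟩
  have hB1 : B ^ (1 - lam) ≠ 0 := by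
    rw [Ne, ENNReal.rpow_eq_zero_iff]
    push Not
    exact ⟨fun h => absurd h hB, fun h => absurd h hb0⟩
  have hA2 : A ^ lam ≠ ⊤ := ENNReal.rpow_ne_top_of_nonneg h0.le ha0
  have hB2 : B ^ (1 - lam) ≠ ⊤ := ENNReal.rpow_ne_top_of_nonneg hl1.le hb0
  have hM0 : M ≠ 0 := by rw [hM]; exact mul_ne_zero hA1 hB1
  have hMt : M ≠ ⊤ := by rw [hM]; exact ENNReal.mul_ne_top hA2 hB2
  have hn := lspPLb_norm h0 h1 (fun t => a t / A) (fun t => b t / B) (fun t => min (c t / M) 1)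
    (ha.div_const _) (hb.div_const _) ((hc.div_const _).min measurable_const)
    (by
      simp only [div_eq_mul_inv]
      rw [← ENNReal.iSup_mul, ← hAdef]
      exact ENNReal.mul_inv_cancel hA ha0)
    (by
      simp only [div_eq_mul_inv]
      rw [← ENNReal.iSup_mul, ← hBdef]
      exact ENNReal.mul_inv_cancel hB hb0)
    (fun t => min_le_right _ _) (by
      intro s t
      refine le_min ?_ ?_
      · have e : (a s / A) ^ lam * (b t / B) ^ (1 - lam) =
            (a s ^ lam * b t ^ (1 - lam)) / M := by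
          rw [ENNReal.div_rpow_of_nonneg _ _ hl1.le, ENNReal.div_rpow_of_nonneg _ _ h0.le, hM]
          simp only [div_eq_mul_inv]
          rw [ENNReal.mul_inv (Or.inl hA1) (Or.inl hA2)]
          ring
        show (a s / A) ^ lam * (b t / B) ^ (1 - lam) ≤ c (lam * s + (1 - lam) * t) / M
        rw [e]
        exact ENNReal.div_le_div_right (habc s t) _
      · have h3 : (a s / A) ^ lam ≤ 1 := by
          refine ENNReal.rpow_le_one ?_ h0.le
          exact ENNReal.div_le_of_le_mul (by rw [one_mul]; exact hleA s)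
        have h4 : (b t / B) ^ (1 - lam) ≤ 1 := by
          refine ENNReal.rpow_le_one ?_ hl1.le
          exact ENNReal.div_le_of_le_mul (by rw [one_mul]; exact hleB t)
        exact mul_le_one' h3 h4)
  have hAi : A⁻¹ ≠ ⊤ := ENNReal.inv_ne_top.2 hA
  have hBi : B⁻¹ ≠ ⊤ := ENNReal.inv_ne_top.2 hB
  have hMi : M⁻¹ ≠ ⊤ := ENNReal.inv_ne_top.2 hM0
  have ea : ∫⁻ t, a t / A = (∫⁻ t, a t) / A := by
    simp only [div_eq_mul_inv]
    rw [lintegral_mul_const' _ _ hAi]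
  have eb : ∫⁻ t, b t / B = (∫⁻ t, b t) / B := by
    simp only [div_eq_mul_inv]
    rw [lintegral_mul_const' _ _ hBi]
  have ec : ∫⁻ t, min (c t / M) 1 ≤ (∫⁻ t, c t) / M := by
    refine (lintegral_mono (fun t => min_le_left _ _)).trans ?_
    simp only [div_eq_mul_inv]
    rw [lintegral_mul_const' _ _ hMi]
  rw [ea, eb] at hn
  have hgm := lspPLb_amgm h0 h1 ((∫⁻ t, a t) / A) ((∫⁻ t, b t) / B)
  have hfin := (hgm.trans hn).trans ec
  have e : ((∫⁻ t, a t) / A) ^ lam * ((∫⁻ t, b t) / B) ^ (1 - lam) =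
      ((∫⁻ t, a t) ^ lam * (∫⁻ t, b t) ^ (1 - lam)) / M := by
    rw [ENNReal.div_rpow_of_nonneg _ _ hl1.le, ENNReal.div_rpow_of_nonneg _ _ h0.le, hM]
    simp only [div_eq_mul_inv]
    rw [ENNReal.mul_inv (Or.inl hA1) (Or.inl hA2)]
    ring
  rw [e] at hfin
  have h5 := mul_le_mul_left hfin M
  rwa [ENNReal.div_mul_cancel hM0 hMt, ENNReal.div_mul_cancel hM0 hMt] at h5

private theorem lspPLb_trunc (f : ℝ → ENNReal) (hf : Measurable f) :
    ∫⁻ x, f x = ⨆ n : ℕ, ∫⁻ x, min (f x) (n : ENNReal) := by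
  rw [← lintegral_iSup]
  · refine lintegral_congr fun x => ?_
    have h1 : f x = min (f x) (⨆ n : ℕ, (n : ENNReal)) := by
      rw [ENNReal.iSup_natCast]
      exact (min_eq_left le_top).symm
    have h2 : min (f x) (⨆ n : ℕ, (n : ENNReal)) = ⨆ n : ℕ, min (f x) (n : ENNReal) :=
      inf_iSup_eq _ _
    rw [← h2, ← h1]
  · intro n
    exact hf.min measurable_const
  · intro n m hnm x
    exact min_le_min le_rfl (by exact_mod_cast hnm)

private theorem lspPLb_rpow {s : ℝ} (hs : 0 < s) (F : ℕ → ENNReal) :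
    (⨆ n, F n) ^ s = ⨆ n, F n ^ s := by
  have h := (ENNReal.orderIsoRpow s hs).map_iSup F
  exact h

theorem pl_one {lam : ℝ} (h0 : 0 < lam) (h1 : lam < 1) (f g h : ℝ → ENNReal)
    (hf : Measurable f) (hg : Measurable g) (hh : Measurable h)
    (H : ∀ x y, f x ^ lam * g y ^ (1 - lam) ≤ h (lam * x + (1 - lam) * y)) :
    (∫⁻ x, f x) ^ lam * (∫⁻ x, g x) ^ (1 - lam) ≤ ∫⁻ x, h x := by
  have hl1 : 0 < 1 - lam := sub_pos.2 h1
  rw [lspPLb_trunc f hf, lspPLb_trunc g hg, lspPLb_rpow h0, lspPLb_rpow hl1, ENNReal.iSup_mul]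
  refine iSup_le fun n => ?_
  rw [ENNReal.mul_iSup]
  refine iSup_le fun m => ?_
  refine lspPLb_bdd h0 h1 _ _ h (hf.min measurable_const) (hg.min measurable_const) hh ?_ ?_ ?_
  · exact ne_top_of_le_ne_top (ENNReal.natCast_ne_top n) (iSup_le fun x => min_le_right _ _)
  · exact ne_top_of_le_ne_top (ENNReal.natCast_ne_top m) (iSup_le fun x => min_le_right _ _)
  · intro s t
    refine le_trans ?_ (H s t)
    exact mul_le_mul' (ENNReal.rpow_le_rpow (min_le_left _ _) h0.le)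
      (ENNReal.rpow_le_rpow (min_le_left _ _) hl1.le)

end Pool.Agent.Lib.MP_29b1bb_gt.LP
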