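import Pool.Agent.Lib.MP_29b1bb_gt.LP.PLb

/-!
# LP-PLc: the Prékopa-Leindler inequality and the multiplicative Brunn-Minkowski inequality

`pl`: induction on `n`. `n = 0`: one point (`lintegral_unique`/`volume` on `Fin 0 → ℝ` is a Dirac
measure, `MeasureTheory.Measure.volume_pi_eq_dirac`). `n + 1`: with
`MeasureTheory.volume_preserving_piFinSuccAbove (fun _ => ℝ) 0` (`(Fin (n+1) → ℝ) ≃ᵐ ℝ × (Fin n → ℝ)`,
inverse `Fin.cons`), `F s = ∫⁻ x', f (Fin.cons s x')` etc. are measurable, the induction hypothesis for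
`f (cons s ·)`, `g (cons t ·)`, `h (cons (λs+(1-λ)t) ·)` gives `F(s)^λ G(t)^{1-λ} ≤ H(λs+(1-λ)t)`, then
`pl_one`. `bm`: `pl` for the indicators.
-/

set_option autoImplicit false

open MeasureTheory Set

namespace Pool.Agent.Lib.MP_29b1bb_gt.LP

private theorem lspPLc_comb {n : ℕ} (lam s t : ℝ) (y z : Fin n → ℝ) :
    lam • (MeasurableEquiv.piFinSuccAbove (fun _ : Fin (n + 1) => ℝ) 0).symm (s, y) +
      (1 - lam) • (MeasurableEquiv.piFinSuccAbove (fun _ : Fin (n + 1) => ℝ) 0).symm (t, z) =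
    (MeasurableEquiv.piFinSuccAbove (fun _ : Fin (n + 1) => ℝ) 0).symm
      (lam * s + (1 - lam) * t, lam • y + (1 - lam) • z) := by
  ext i
  refine Fin.cases ?_ (fun i => ?_) i
  · simp [MeasurableEquiv.piFinSuccAbove]
  · simp [MeasurableEquiv.piFinSuccAbove]

private theorem lspPLc_fub {n : ℕ} (f : (Fin (n + 1) → ℝ) → ENNReal) (hf : Measurable f) :
    ∫⁻ x, f x = ∫⁻ s : ℝ, ∫⁻ y : Fin n → ℝ,
      f ((MeasurableEquiv.piFinSuccAbove (fun _ : Fin (n + 1) => ℝ) 0).symm (s, y)) := by
  have h1 := (volume_preserving_piFinSuccAbove (fun _ : Fin (n + 1) => ℝ) 0).symm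
  rw [← h1.lintegral_comp hf]
  rw [Measure.volume_eq_prod, lintegral_prod]
  exact (hf.comp (MeasurableEquiv.piFinSuccAbove (fun _ : Fin (n + 1) => ℝ) 0).symm.measurable).aemeasurable

/-- **Prékopa-Leindler inequality.** -/
theorem pl {n : ℕ} {lam : ℝ} (h0 : 0 < lam) (h1 : lam < 1) (f g h : (Fin n → ℝ) → ENNReal)
    (hf : Measurable f) (hg : Measurable g) (hh : Measurable h)
    (H : ∀ x y, f x ^ lam * g y ^ (1 - lam) ≤ h (lam • x + (1 - lam) • y)) :
    (∫⁻ x, f x) ^ lam * (∫⁻ x, g x) ^ (1 - lam) ≤ ∫⁻ x, h x := by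
  induction n with
  | zero =>
    have hv : (volume : Measure (Fin 0 → ℝ)) univ = 1 := by
      rw [volume_pi, Measure.pi_univ]
      simp
    rw [lintegral_unique, lintegral_unique, lintegral_unique, hv, mul_one, mul_one, mul_one]
    refine le_trans (le_of_eq ?_) ((H (fun _ => 0) (fun _ => 0)).trans (le_of_eq ?_))
    · congr 3 <;> exact Subsingleton.elim _ _
    · congr 1
      exact Subsingleton.elim _ _
  | succ n ih =>
    rw [lspPLc_fub f hf, lspPLc_fub g hg, lspPLc_fub h hh]
    have hm : ∀ u : (Fin (n + 1) → ℝ) → ENNReal, Measurable u → Measurable (fun p : ℝ × (Fin n → ℝ) =>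
        u ((MeasurableEquiv.piFinSuccAbove (fun _ : Fin (n + 1) => ℝ) 0).symm p)) := fun u hu =>
      hu.comp (MeasurableEquiv.piFinSuccAbove (fun _ : Fin (n + 1) => ℝ) 0).symm.measurable
    refine pl_one h0 h1 _ _ _ (hm f hf).lintegral_prod_right' (hm g hg).lintegral_prod_right'
      (hm h hh).lintegral_prod_right' ?_
    intro s t
    refine ih _ _ _ ((hm f hf).comp measurable_prodMk_left) ((hm g hg).comp measurable_prodMk_left)
      ((hm h hh).comp measurable_prodMk_left) ?_
    intro y z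
    have h2 := H ((MeasurableEquiv.piFinSuccAbove (fun _ : Fin (n + 1) => ℝ) 0).symm (s, y))
      ((MeasurableEquiv.piFinSuccAbove (fun _ : Fin (n + 1) => ℝ) 0).symm (t, z))
    rw [lspPLc_comb] at h2
    exact h2

/-- **Brunn-Minkowski inequality**, multiplicative form. -/
theorem bm {n : ℕ} {lam : ℝ} (h0 : 0 < lam) (h1 : lam < 1) (A B C : Set (Fin n → ℝ))
    (hA : MeasurableSet A) (hB : MeasurableSet B) (hC : MeasurableSet C)
    (H : ∀ x ∈ A, ∀ y ∈ B, lam • x + (1 - lam) • y ∈ C) :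
    volume A ^ lam * volume B ^ (1 - lam) ≤ volume C := by
  classical
  have h2 : 0 < 1 - lam := by linarith
  have := pl h0 h1 (A.indicator 1) (B.indicator 1) (C.indicator 1)
    (measurable_one.indicator hA) (measurable_one.indicator hB) (measurable_one.indicator hC) ?_
  · rwa [lintegral_indicator_one hA, lintegral_indicator_one hB, lintegral_indicator_one hC] at this
  · intro x y
    by_cases hx : x ∈ A
    · by_cases hy : y ∈ B
      · rw [indicator_of_mem hx, indicator_of_mem hy, indicator_of_mem (H x hx y hy)]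
        simp
      · rw [indicator_of_notMem hy, ENNReal.zero_rpow_of_pos h2, mul_zero]
        exact bot_le
    · rw [indicator_of_notMem hx, ENNReal.zero_rpow_of_pos h0, zero_mul]
      exact bot_le

end Pool.Agent.Lib.MP_29b1bb_gt.LP
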