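import Pool.Agent.Lib.MP_29b1bb_gt.LP.Defs

/-!
# LP-Phi: elementary properties of `phi`

* `phi_int`: a finite linear combination of functions in `L_p` is in `L_p`
  (`memLp_finset_sum`/`memLp_finsetSum`, `MemLp.const_mul`), and `MemLp.integrable_norm_rpow`.
* `phi_continuous`: the `L_p` seminorm of `∑ x_i f_i` is continuous in `x`:
  `‖∑ x_i f_i‖ - ‖∑ y_i f_i‖ ≤ ∑ |x_i - y_i| ‖f_i‖` (`phi^(1/p)` is the norm, `eLpNorm_eq_…`), or
  dominated convergence (`continuous_of_dominated` on each ball: for `|x i| ≤ R`: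
  `|∑ x_i f_i|^p ≤ (R ∑ |f_i|)^p`, integrable; `continuous_iff_continuousAt`,
  `MeasureTheory.continuousAt_of_dominated`).
* `sq_int`: `√(∑ (∑ B_ij f_i)²)^p ≤ (C ∑ |f_i|)^p`, `C = ∑ |B_ij|`; measurability from `f i`
  a.e. strongly measurable.
-/

set_option autoImplicit false

open MeasureTheory Set

namespace Pool.Agent.Lib.MP_29b1bb_gt.LP

variable {Ω : Type*} [MeasurableSpace Ω] {ν : Measure Ω} {p : ℝ} {d : ℕ} {f : Fin d → Ω → ℝ}

private theorem lspPhi_memLp (hf : ∀ i, MemLp (f i) (ENNReal.ofReal p) ν) (x : Fin d → ℝ) :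
    MemLp (fun ω => ∑ i, x i * f i ω) (ENNReal.ofReal p) ν :=
  memLp_finsetSum Finset.univ fun i _ => (hf i).const_mul (x i)

private theorem lspPhi_int (hp : 1 ≤ p) {g : Ω → ℝ} (hg : MemLp g (ENNReal.ofReal p) ν) :
    Integrable (fun ω => |g ω| ^ p) ν := by
  have hp0 : 0 < p := by linarith
  have h1 := hg.integrable_norm_rpow (by rw [Ne, ENNReal.ofReal_eq_zero]; linarith)
    ENNReal.ofReal_ne_top
  rw [ENNReal.toReal_ofReal hp0.le] at h1
  simpa only [Real.norm_eq_abs] using h1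

theorem phi_int (hp : 1 ≤ p) (hf : ∀ i, MemLp (f i) (ENNReal.ofReal p) ν) (x : Fin d → ℝ) :
    Integrable (fun ω => |∑ i, x i * f i ω| ^ p) ν :=
  lspPhi_int hp (lspPhi_memLp hf x)

theorem sq_int (hp : 1 ≤ p) (hf : ∀ i, MemLp (f i) (ENNReal.ofReal p) ν)
    (B : Matrix (Fin d) (Fin d) ℝ) :
    Integrable (fun ω => Real.sqrt (∑ j, (∑ i, B i j * f i ω) ^ 2) ^ p) ν := by
  have h1 : ∀ j, MemLp (fun ω => ∑ i, B i j * f i ω) (ENNReal.ofReal p) ν :=
    fun j => lspPhi_memLp hf fun i => B i j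
  have h2 : MemLp (fun ω => ∑ j, |∑ i, B i j * f i ω|) (ENNReal.ofReal p) ν :=
    memLp_finsetSum Finset.univ fun j _ => (h1 j).abs
  have hm : AEStronglyMeasurable (fun ω => Real.sqrt (∑ j, (∑ i, B i j * f i ω) ^ 2)) ν := by
    refine Real.continuous_sqrt.comp_aestronglyMeasurable ?_
    refine Finset.aestronglyMeasurable_fun_sum Finset.univ fun j _ => ?_
    exact (h1 j).aestronglyMeasurable.pow 2
  have h3 : MemLp (fun ω => Real.sqrt (∑ j, (∑ i, B i j * f i ω) ^ 2))
      (ENNReal.ofReal p) ν := by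
    refine h2.mono hm (Filter.Eventually.of_forall fun ω => ?_)
    rw [Real.norm_eq_abs, Real.norm_eq_abs, abs_of_nonneg (Real.sqrt_nonneg _),
      abs_of_nonneg (Finset.sum_nonneg fun j _ => abs_nonneg _)]
    rw [Real.sqrt_le_left (Finset.sum_nonneg fun j _ => abs_nonneg _)]
    calc ∑ j, (∑ i, B i j * f i ω) ^ 2 = ∑ j, |∑ i, B i j * f i ω| ^ 2 := by
          refine Finset.sum_congr rfl fun j _ => (sq_abs _).symm
      _ ≤ (∑ j, |∑ i, B i j * f i ω|) ^ 2 :=
          Finset.sum_sq_le_sq_sum_of_nonneg fun j _ => abs_nonneg _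
  refine (lspPhi_int hp h3).congr (Filter.Eventually.of_forall fun ω => ?_)
  simp only
  rw [abs_of_nonneg (Real.sqrt_nonneg _)]

theorem phi_nonneg (x : Fin d → ℝ) : 0 ≤ phi ν p f x :=
  integral_nonneg fun _ => Real.rpow_nonneg (abs_nonneg _) _

theorem phi_smul (t : ℝ) (ht : 0 < t) (x : Fin d → ℝ) :
    phi ν p f (t • x) = t ^ p * phi ν p f x := by
  unfold phi
  rw [← integral_const_mul]
  congr 1
  funext ω
  have h1 : ∑ i, (t • x) i * f i ω = t * ∑ i, x i * f i ω := by
    rw [Finset.mul_sum]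
    refine Finset.sum_congr rfl fun i _ => ?_
    rw [Pi.smul_apply, smul_eq_mul, mul_assoc]
  rw [h1, abs_mul, abs_of_pos ht, Real.mul_rpow ht.le (abs_nonneg _)]

theorem phi_continuous (hp : 1 ≤ p) (hf : ∀ i, MemLp (f i) (ENNReal.ofReal p) ν) :
    Continuous (phi ν p f) := by
  have hp0 : 0 < p := by linarith
  rw [continuous_iff_continuousAt]
  intro x₀
  set R : ℝ := ‖x₀‖ + 1 with hR
  have hR0 : 0 < R := by positivity
  have hb : MemLp (fun ω => ∑ i, R * |f i ω|) (ENNReal.ofReal p) ν :=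
    memLp_finsetSum Finset.univ fun i _ => ((hf i).abs).const_mul R
  refine continuousAt_of_dominated (bound := fun ω => |∑ i, R * abs (f i ω)| ^ p) ?_ ?_
    (lspPhi_int hp hb) ?_
  · exact Filter.Eventually.of_forall fun x => (phi_int hp hf x).aestronglyMeasurable
  · have h1 : ∀ᶠ x in nhds x₀, x ∈ Metric.ball x₀ 1 := Metric.ball_mem_nhds x₀ one_pos
    filter_upwards [h1] with x hx
    refine Filter.Eventually.of_forall fun ω => ?_
    rw [Real.norm_eq_abs, abs_of_nonneg (Real.rpow_nonneg (abs_nonneg _) _)]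
    refine Real.rpow_le_rpow (abs_nonneg _) ?_ hp0.le
    rw [abs_of_nonneg (Finset.sum_nonneg fun i _ => mul_nonneg hR0.le (abs_nonneg _))]
    refine (Finset.abs_sum_le_sum_abs _ _).trans (Finset.sum_le_sum fun i _ => ?_)
    rw [abs_mul]
    refine mul_le_mul_of_nonneg_right ?_ (abs_nonneg _)
    have h2 : ‖x‖ ≤ R := by
      have h3 : ‖x‖ ≤ ‖x₀‖ + ‖x - x₀‖ := by
        have := norm_add_le x₀ (x - x₀)
        rwa [add_sub_cancel] at this
      have h4 : ‖x - x₀‖ < 1 := by
        rw [← dist_eq_norm]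
        exact hx
      linarith
    have h5 : |x i| ≤ ‖x‖ := by
      have := norm_le_pi_norm x i
      rwa [Real.norm_eq_abs] at this
    linarith
  · refine Filter.Eventually.of_forall fun ω => ?_
    have h6 : Continuous fun x : Fin d → ℝ => |∑ i, x i * f i ω| ^ p := by
      refine Continuous.rpow_const ?_ fun x => Or.inr hp0.le
      exact (continuous_finsetSum Finset.univ fun i _ =>
        (continuous_apply i).mul continuous_const).abs
    exact h6.continuousAt

end Pool.Agent.Lib.MP_29b1bb_gt.LP
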