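import Pool.Agent.Lib.MP_29b1bb_gt.LP.Gap

/-!
# LP-Pos: the mean volume of a body is positive; the strict inequalities
-/

set_option autoImplicit false

open MeasureTheory Set
open scoped Pointwise

namespace Pool.Agent.Lib.MP_29b1bb_gt.LP

private theorem pos_point {d : ℕ} (z : EuclideanSpace ℝ (Fin d)) {ρ : ℝ} (hρ : 0 < ρ) :
    0 < (volume (convexHull ℝ (Set.range fun i : Fin (d + 1) => z +
      ρ • (Fin.cons 0 (fun k => EuclideanSpace.single k (1 : ℝ)) :
          Fin (d + 1) → EuclideanSpace ℝ (Fin d)) i))).toReal := by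
  set s : Fin (d + 1) → EuclideanSpace ℝ (Fin d) :=
    Fin.cons 0 (fun k => EuclideanSpace.single k (1 : ℝ)) with hs
  have h1 : (Set.range fun i : Fin (d + 1) => z + ρ • s i) =
      (fun y => z + y) '' (ρ • Set.range s) := by
    rw [← Set.image_smul, ← Set.range_comp, ← Set.range_comp]
    rfl
  have h2 : convexHull ℝ ((fun y => z + y) '' (ρ • Set.range s)) =
      (fun y => z + y) '' (ρ • convexHull ℝ (Set.range s)) := by
    rw [← convexHull_smul]
    have := AffineMap.image_convexHull
      ((AffineEquiv.constVAdd ℝ (EuclideanSpace ℝ (Fin d)) z).toAffineMap) (ρ • range s)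
    simpa using this.symm
  have h3 : volume ((fun y => z + y) '' (ρ • convexHull ℝ (Set.range s))) =
      volume (ρ • convexHull ℝ (Set.range s)) := by
    rw [Set.image_add_left]
    exact measure_preimage_add _ _ _
  rw [h1, h2, h3, Measure.addHaar_smul, scV0 d, finrank_euclideanSpace, Fintype.card_fin,
    ENNReal.toReal_mul, ENNReal.toReal_ofReal (abs_nonneg _), ENNReal.toReal_ofReal (by positivity)]
  have h4 : 0 < |ρ ^ d| := abs_pos.2 (pow_pos hρ d).ne'
  have h5 : (0 : ℝ) < d.factorial := by exact_mod_cast d.factorial_pos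
  positivity

private theorem pos_cont (d : ℕ) : Continuous fun x : Fin (d + 1) → EuclideanSpace ℝ (Fin d) =>
    (volume (convexHull ℝ (Set.range x))).toReal := by
  simp only [scV]
  refine Continuous.div_const (Continuous.abs (Continuous.matrix_det ?_)) _
  refine continuous_matrix fun i j => ?_
  refine Fin.cases ?_ (fun l => ?_) j
  · simp only [scRow, Matrix.of_apply, Fin.cons_zero]
    exact continuous_const
  · simp only [scRow, Matrix.of_apply, Fin.cons_succ]
    fun_prop

/-- The mean volume of a compact set with nonempty interior is positive. -/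
theorem scMean_pos {d : ℕ} {K : Set (EuclideanSpace ℝ (Fin d))} (hK : IsCompact K)
    (hi : (interior K).Nonempty) : 0 < scMean d K := by
  have hvol : 0 < (volume K).toReal :=
    ENNReal.toReal_pos (Measure.measure_pos_of_nonempty_interior _ hi).ne' hK.measure_lt_top.ne
  unfold scMean
  refine div_pos ?_ (pow_pos hvol _)
  have hcont := pos_cont d
  have hKc : IsCompact (Set.pi Set.univ (fun _ : Fin (d + 1) => K)) :=
    isCompact_univ_pi fun _ => hK
  have hint : IntegrableOn (fun x : Fin (d + 1) → EuclideanSpace ℝ (Fin d) =>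
      (volume (convexHull ℝ (Set.range x))).toReal)
      (Set.pi Set.univ (fun _ : Fin (d + 1) => K)) :=
    hcont.continuousOn.integrableOn_compact hKc
  rw [setIntegral_pos_iff_support_of_nonneg_ae
    (Filter.Eventually.of_forall fun _ => ENNReal.toReal_nonneg) hint]
  obtain ⟨z, hz⟩ := hi
  obtain ⟨r, hr, hball⟩ := Metric.isOpen_iff.1 isOpen_interior z hz
  set U : Set (Fin (d + 1) → EuclideanSpace ℝ (Fin d)) :=
    {x | 0 < (volume (convexHull ℝ (Set.range x))).toReal} ∩
      Set.pi Set.univ (fun _ : Fin (d + 1) => interior K) with hU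
  have hUo : IsOpen U := (isOpen_lt continuous_const hcont).inter
    (isOpen_set_pi Set.finite_univ fun _ _ => isOpen_interior)
  have hUn : U.Nonempty := by
    refine ⟨_, pos_point z (half_pos hr), ?_⟩
    intro i _
    refine hball ?_
    rw [Metric.mem_ball, dist_eq_norm, add_sub_cancel_left, norm_smul, Real.norm_eq_abs,
      abs_of_pos (half_pos hr)]
    refine Fin.cases ?_ (fun k => ?_) i
    · simpa using hr
    · simp only [Fin.cons_succ, PiLp.norm_single, norm_one, mul_one]
      exact half_lt_self hr
  refine lt_of_lt_of_le (hUo.measure_pos volume hUn) (measure_mono ?_)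
  rintro x ⟨hx1, hx2⟩
  refine ⟨?_, fun i hi => interior_subset (hx2 i hi)⟩
  rw [Function.mem_support]
  exact (ne_of_gt hx1)

/-- from the inequality with `b' > b` to the strict inequality with `b` -/
theorem strict_of_gap {d : ℕ} (hd : 0 < d) {b b' a x y : ℝ} (hb : 0 < b) (hbb : b < b')
    (hx : 0 < x) (h : b' ^ d * x ≤ a ^ d * y) : x < (a / b) ^ d * y := by
  have h1 : b ^ d < b' ^ d := pow_lt_pow_left₀ hbb hb.le hd.ne'
  have h2 : b ^ d * x < a ^ d * y := lt_of_lt_of_le (mul_lt_mul_of_pos_right h1 hx) h
  have h3 : 0 < b ^ d := pow_pos hb d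
  rw [div_pow, div_mul_eq_mul_div, lt_div_iff₀ h3]
  linarith

end Pool.Agent.Lib.MP_29b1bb_gt.LP
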