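import Pool.Agent.Lib.MP_29b1bb_gt.LP.Main

/-!
# LP-Tra: translations
-/

set_option autoImplicit false

open MeasureTheory Set

namespace Pool.Agent.Lib.MP_29b1bb_gt.LP

variable {d : ℕ}

theorem vol_tra (K : Set (EuclideanSpace ℝ (Fin d))) (b : EuclideanSpace ℝ (Fin d)) :
    volume ((fun x => x + b) ⁻¹' K) = volume K := measure_preimage_add_right _ _ _

theorem int_tra (K : Set (EuclideanSpace ℝ (Fin d))) (b : EuclideanSpace ℝ (Fin d))
    (g : EuclideanSpace ℝ (Fin d) → ℝ) :
    ∫ x in (fun x => x + b) ⁻¹' K, g (x + b) = ∫ x in K, g x := by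
  have h := (measurePreserving_add_right (volume : Measure (EuclideanSpace ℝ (Fin d))) b)
  exact h.setIntegral_preimage_emb (measurableEmbedding_addRight b) g K

theorem avg_tra (K : Set (EuclideanSpace ℝ (Fin d))) (b : EuclideanSpace ℝ (Fin d))
    (g : EuclideanSpace ℝ (Fin d) → ℝ) :
    (⨍ x in (fun x => x + b) ⁻¹' K, g (x + b)) = ⨍ x in K, g x := by
  rw [setAverage_eq, setAverage_eq, int_tra]
  simp only [Measure.real, vol_tra]

theorem cov_tra (K : Set (EuclideanSpace ℝ (Fin d))) (hK : IsCompact K)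
    (hi : (interior K).Nonempty) (b : EuclideanSpace ℝ (Fin d)) :
    scCov d ((fun x => x + b) ⁻¹' K) = scCov d K := by
  have hK0 : volume K ≠ 0 := (Measure.measure_pos_of_nonempty_interior _ hi).ne'
  have hKt : volume K ≠ ⊤ := hK.measure_lt_top.ne
  set K' := (fun x => x + b) ⁻¹' K with hK'
  have h0 : volume K' ≠ 0 := by rw [hK', vol_tra]; exact hK0
  have ht : volume K' ≠ ⊤ := by rw [hK', vol_tra]; exact hKt
  have hK'c : IsCompact K' := by
    have : K' = (Homeomorph.addRight b) ⁻¹' K := rfl
    rw [this]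
    exact (Homeomorph.isCompact_preimage _).mpr hK
  haveI : Fact (volume K' < ⊤) := ⟨ht.lt_top⟩
  have hint : ∀ g : EuclideanSpace ℝ (Fin d) → ℝ, Continuous g →
      Integrable g (volume.restrict K') := fun g hg => hg.continuousOn.integrableOn_compact hK'c
  have hci : ∀ i, Continuous fun x : EuclideanSpace ℝ (Fin d) => x i := fun i => by fun_prop
  -- averages of the coordinates
  have hone : (⨍ _x in K', (1 : ℝ)) = 1 := setAverage_const h0 ht 1
  have havg1 : ∀ i, (⨍ x in K, x i) = (⨍ x in K', x i) + b i := by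
    intro i
    rw [← avg_tra K b (fun x => x i)]
    have h1 : (⨍ x in K', (x + b) i) = ⨍ x in K', (x i + b i) := rfl
    rw [h1, setAverage_eq, setAverage_eq, integral_add (hint _ (hci i)) (hint _ continuous_const),
      smul_add]
    congr 1
    rw [← setAverage_eq, setAverage_const h0 ht]
  have havg2 : ∀ i j, (⨍ x in K, x i * x j) = (⨍ x in K', x i * x j) + b j * (⨍ x in K', x i) +
      b i * (⨍ x in K', x j) + b i * b j := by
    intro i j
    rw [← avg_tra K b (fun x => x i * x j)]
    have h1 : (⨍ x in K', (x + b) i * (x + b) j) =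
        ⨍ x in K', (x i * x j + b j * x i + b i * x j + b i * b j) := by
      congr 1
      funext x
      simp only [PiLp.add_apply]
      ring
    have hij : Continuous fun x : EuclideanSpace ℝ (Fin d) => x i * x j := (hci i).mul (hci j)
    rw [h1, setAverage_eq, setAverage_eq, setAverage_eq, setAverage_eq, integral_add, integral_add,
      integral_add, smul_add, smul_add, smul_add, integral_const_mul, integral_const_mul]
    · simp only [smul_eq_mul]
      have h2 : (volume.real K')⁻¹ * ∫ _x in K', b i * b j = b i * b j := by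
        have := setAverage_const h0 ht (b i * b j)
        rw [setAverage_eq, smul_eq_mul] at this
        exact this
      rw [h2]
      ring
    · exact hint _ hij
    · exact hint _ (continuous_const.mul (hci i))
    · exact hint _ (hij.add (continuous_const.mul (hci i)))
    · exact hint _ (continuous_const.mul (hci j))
    · exact hint _ ((hij.add (continuous_const.mul (hci i))).add (continuous_const.mul (hci j)))
    · exact hint _ continuous_const
  ext i j
  simp only [scCov, Matrix.of_apply]
  rw [havg1 i, havg1 j, havg2 i j]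
  ring

/-- The criterion with a centre. -/
theorem lp_criterion_centre (q : ℝ) (h0 : 0 ≤ q) (hq : q < Real.sqrt (2 * Real.pi / Real.exp 1)) :
    ∃ d₀ : ℕ, ∀ d : ℕ, d₀ ≤ d →
      ∀ (Ω : Type*) [MeasurableSpace Ω] (ν : Measure Ω) [SigmaFinite ν] (p c : ℝ)
        (f : Fin d → Ω → ℝ) (K : Set (EuclideanSpace ℝ (Fin d)))
        (b : EuclideanSpace ℝ (Fin d))
        (r : Fin (d + 1) → EuclideanSpace ℝ (Fin d)),
        1 ≤ p → (∀ i, MemLp (f i) (ENNReal.ofReal p) ν) →
        IsCompact K → (interior K).Nonempty → (∀ x ∈ K, x - b ∈ uball ν p f) →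
        (p < 2 → Convex ℝ K ∧ ∀ x ∈ K, (2 : ℝ) • b - x ∈ K) →
        0 ≤ c → volume (uball ν p f) ≤ ENNReal.ofReal (c ^ d) * volume K →
        c * kap p * gm p ^ (1 / p) ≤ q →
        AffineIndependent ℝ r → volume K = volume (convexHull ℝ (Set.range r)) →
        scMean d K ≤ scMean d (convexHull ℝ (Set.range r)) := by
  obtain ⟨ε, hε, hε1, d₁, h₁⟩ := asy q h0 hq
  obtain ⟨d₂, h₂⟩ := sc_criterion ε hε hε1
  refine ⟨max 1 (max d₁ d₂), ?_⟩
  intro d hd Ω _ ν _ p c f K b r hp hf hK hi hsub hsym hc hvolL hcq hr hvol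
  have hd1 : 0 < d := by omega
  refine h₂ d (by omega) K r hK hi hr hvol ?_
  set K' := (fun x => x + b) ⁻¹' K with hK'
  have hvK : volume K' = volume K := vol_tra K b
  have hK'eq : K' = (Homeomorph.addRight b) ⁻¹' K := rfl
  have hK'c : IsCompact K' := by
    rw [hK'eq]
    exact (Homeomorph.isCompact_preimage _).mpr hK
  have hK'i : (interior K').Nonempty := by
    rw [hK'eq, ← Homeomorph.preimage_interior]
    obtain ⟨y, hy⟩ := hi
    refine ⟨y - b, ?_⟩
    show (y - b) + b ∈ interior K
    rwa [sub_add_cancel]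
  have hK'sub : K' ⊆ uball ν p f := by
    intro x hx
    have := hsub (x + b) hx
    rwa [add_sub_cancel_right] at this
  have hK'sym : p < 2 → Convex ℝ K' ∧ ∀ x ∈ K', -x ∈ K' := by
    intro h
    obtain ⟨h1, h2⟩ := hsym h
    refine ⟨h1.translate_preimage_left b, ?_⟩
    intro x hx
    have h3 := h2 (x + b) hx
    show -x + b ∈ K
    have h4 : (2 : ℝ) • b - (x + b) = -x + b := by
      rw [two_smul]
      abel
    rwa [h4] at h3
  rw [← cov_tra K hK hi b, ← hvK]
  rw [← hvK] at hvolL
  exact final_bound q h0 hε hε1 (h₁ d (by omega)) hd1 ν p c f K' hp hf hK'c hK'i hK'sub hK'sym hc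
    hvolL hcq

end Pool.Agent.Lib.MP_29b1bb_gt.LP
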