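import Pool.Agent.Lib.MP_29b1bb_gt.LP.Defs

/-!
# LP-Vol: the volume of the unit ball and `∫ e^{-Φ}`

`e^{-Φ(x)} = ∫_{t > 0, Φ(x) < t} e^{-t} dt` (as `Φ ≥ 0`; e.g. `integral_exp_neg_Ioi`), Tonelli:
`∫⁻ e^{-Φ} = ∫⁻_{t>0} e^{-t} volume {Φ < t}`. For `t > 0`, `{Φ < t} = t^{1/p} • {Φ < 1}` (homogeneity),
`volume {Φ < t} = t^{d/p} volume {Φ < 1}` (`Measure.addHaar_smul`, or
`Measure.addHaar_preimage_smul`), `volume {Φ < 1} ≤ volume {Φ ≤ 1}`, and
`∫⁻_{t>0} t^{d/p} e^{-t} = Γ(1 + d/p)` (`Real.Gamma_eq_integral`,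
`ofReal_integral_eq_lintegral_ofReal`, `Real.GammaIntegral_convergent`).
-/

set_option autoImplicit false

open MeasureTheory Set

namespace Pool.Agent.Lib.MP_29b1bb_gt.LP

private theorem lspVol_inner (a : ℝ) (ha : 0 ≤ a) :
    ∫⁻ t in Ioi (0 : ℝ), (if a < t then ENNReal.ofReal (Real.exp (-t)) else 0) =
      ENNReal.ofReal (Real.exp (-a)) := by
  have h1 : ∀ t : ℝ, (if a < t then ENNReal.ofReal (Real.exp (-t)) else 0) =
      (Ioi a).indicator (fun t => ENNReal.ofReal (Real.exp (-t))) t := by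
    intro t
    simp only [indicator, mem_Ioi]
  simp only [h1]
  rw [lintegral_indicator measurableSet_Ioi, Measure.restrict_restrict measurableSet_Ioi]
  have h2 : Ioi a ∩ Ioi (0 : ℝ) = Ioi a := inter_eq_left.2 (Ioi_subset_Ioi ha)
  rw [h2, ← ofReal_integral_eq_lintegral_ofReal, integral_exp_neg_Ioi]
  · exact integrableOn_exp_neg_Ioi a
  · exact Filter.Eventually.of_forall (fun t => (Real.exp_pos _).le)

private theorem lspVol_smul {d : ℕ} {p : ℝ} (hp : 0 < p) (Φ : (Fin d → ℝ) → ℝ)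
    (hh : ∀ t : ℝ, 0 < t → ∀ x, Φ (t • x) = t ^ p * Φ x) (t : ℝ) (ht : 0 < t) :
    volume {x | Φ x < t} = ENNReal.ofReal (t ^ ((d : ℝ) / p)) * volume {x | Φ x < 1} := by
  set r : ℝ := t ^ (-(1 / p)) with hr
  have hr0 : 0 < r := Real.rpow_pos_of_pos ht _
  have h1 : {x | Φ x < t} = (fun x : Fin d → ℝ => r • x) ⁻¹' {x | Φ x < 1} := by
    ext x
    simp only [mem_preimage, Set.mem_ofPred_eq]
    rw [hh r hr0, hr, ← Real.rpow_mul ht.le]
    have h2 : -(1 / p) * p = -1 := by field_simp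
    rw [h2, Real.rpow_neg_one, inv_mul_eq_div, div_lt_one ht]
  rw [h1, Measure.addHaar_preimage_smul _ hr0.ne']
  congr 2
  rw [Module.finrank_fin_fun, abs_of_pos (inv_pos.2 (pow_pos hr0 d)), hr, ← Real.rpow_natCast,
    ← Real.rpow_mul ht.le, ← Real.rpow_neg ht.le]
  congr 1
  ring

theorem vol_exp {d : ℕ} {p : ℝ} (hp : 0 < p) (Φ : (Fin d → ℝ) → ℝ) (hm : Measurable Φ)
    (h0 : ∀ x, 0 ≤ Φ x) (hh : ∀ t : ℝ, 0 < t → ∀ x, Φ (t • x) = t ^ p * Φ x) :
    ∫⁻ x, ENNReal.ofReal (Real.exp (-Φ x)) ≤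
      volume {x | Φ x ≤ 1} * ENNReal.ofReal (Real.Gamma (1 + (d : ℝ) / p)) := by
  have hms : ∀ t : ℝ, MeasurableSet {x | Φ x < t} := fun t => measurableSet_lt hm measurable_const
  have e1 : ∀ x, ENNReal.ofReal (Real.exp (-Φ x)) =
      ∫⁻ t in Ioi (0 : ℝ), (if Φ x < t then ENNReal.ofReal (Real.exp (-t)) else 0) :=
    fun x => (lspVol_inner (Φ x) (h0 x)).symm
  simp only [e1]
  rw [lintegral_lintegral_swap]
  · have e2 : ∀ t ∈ Ioi (0 : ℝ),
        ∫⁻ x, (if Φ x < t then ENNReal.ofReal (Real.exp (-t)) else 0) =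
        ENNReal.ofReal (Real.exp (-t) * t ^ ((1 + (d : ℝ) / p) - 1)) * volume {x | Φ x < 1} := by
      intro t ht
      have e3 : ∀ x, (if Φ x < t then ENNReal.ofReal (Real.exp (-t)) else 0) =
          {x | Φ x < t}.indicator (fun _ => ENNReal.ofReal (Real.exp (-t))) x := by
        intro x
        simp only [indicator, Set.mem_ofPred_eq]
      simp only [e3]
      rw [lintegral_indicator (hms t), setLIntegral_const, lspVol_smul hp Φ hh t ht,
        add_sub_cancel_left, ENNReal.ofReal_mul (Real.exp_pos _).le, mul_assoc]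
    rw [setLIntegral_congr_fun measurableSet_Ioi e2]
    have hG : 0 < 1 + (d : ℝ) / p := by positivity
    rw [lintegral_mul_const, ← ofReal_integral_eq_lintegral_ofReal, ← Real.Gamma_eq_integral hG,
      mul_comm]
    · refine mul_le_mul' (measure_mono (fun x hx => ?_)) le_rfl
      have hx' : Φ x < 1 := hx
      exact hx'.le
    · exact Real.GammaIntegral_convergent hG
    · refine (ae_restrict_mem measurableSet_Ioi).mono (fun t ht => ?_)
      have ht' : (0 : ℝ) < t := ht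
      show (0 : ℝ) ≤ _
      positivity
    · fun_prop
  · refine Measurable.aemeasurable ?_
    refine Measurable.ite ?_ ?_ measurable_const
    · exact measurableSet_lt (hm.comp measurable_fst) measurable_snd
    · fun_prop

end Pool.Agent.Lib.MP_29b1bb_gt.LP
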